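import Pool.Agent.Helper67.Scheme.Dom

set_option autoImplicit false

namespace Pool.Agent.Helper67.Scheme

open Pool.Agent.Helper58.Scheme Pool.Agent.Helper57.Force

universe u

variable {V : Type u} {G : SimpleGraph V}

/-- every vertex outside `A ∪ B ∪ C` has a neighbour in `A ∪ B ∪ C` -/
def Dominates (G : SimpleGraph V) (T : Set V) : Prop := ∀ x, x ∉ T → ∃ y ∈ T, G.Adj x y

/-- the three classes as a function -/
def cls3 (A B C : Set V) : Fin 4 → Set V := ![A, B, C, ∅]

theorem frame_of_forced {A B C : Set V} (hF : Forced G A B C) (hD : Dominates G (A ∪ B ∪ C))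
    (hmax : ∀ A' B' C' : Set V, Forced G A' B' C' → A ∪ B ∪ C ⊆ A' ∪ B' ∪ C' →
      A' ∪ B' ∪ C' ⊆ A ∪ B ∪ C) : Frame G (cls3 A B C) := by
  obtain ⟨cAB, cBC, cAC⟩ := hF.conn
  have hmem : ∀ x, (∀ i, x ∉ cls3 A B C i) → x ∉ A ∪ B ∪ C := by
    rintro x hx ((h | h) | h)
    · exact hx 0 h
    · exact hx 1 h
    · exact hx 2 h
  -- a vertex with neighbours in two classes
  have h2 : ∀ A B C : Set V, Forced G A B C → (∀ A' B' C' : Set V, Forced G A' B' C' →
      A ∪ B ∪ C ⊆ A' ∪ B' ∪ C' → A' ∪ B' ∪ C' ⊆ A ∪ B ∪ C) →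
      ∀ x a b, a ∈ A → b ∈ B → G.Adj x a → G.Adj x b → x ∈ A ∪ B ∪ C := by
    intro A B C hF hmax x a b ha hb hxa hxb
    have h1 := hmax A B (insert x C) (Forced.add A B C x a b hF ha hb hxa hxb)
      (Set.union_subset_union_right _ (Set.subset_insert _ _))
    exact h1 (Or.inr (Set.mem_insert _ _))
  have e1 : A ∪ B ∪ C = B ∪ C ∪ A := by
    ext x; simp only [Set.mem_union]; tauto
  have e2 : A ∪ B ∪ C = C ∪ A ∪ B := by
    ext x; simp only [Set.mem_union]; tauto
  have hAB := h2 A B C hF hmax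
  have hBC := h2 B C A (Forced.rotate _ _ _ hF) (by rw [← e1]; exact hmax)
  have hCA := h2 C A B (Forced.rotate _ _ _ (Forced.rotate _ _ _ hF)) (by rw [← e2]; exact hmax)
  rw [← e1] at hBC
  rw [← e2] at hCA
  constructor
  · intro i j hij hi hj
    fin_cases i <;> fin_cases j <;>
      first
        | exact absurd rfl hij
        | exact absurd rfl hi
        | exact absurd rfl hj
        | exact cAB
        | exact cAC
        | exact cBC
        | exact conn_union_comm cAB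
        | exact conn_union_comm cAC
        | exact conn_union_comm cBC
  · intro x hx
    exact hx
  · intro x hx
    obtain ⟨y, (hy | hy) | hy, hxy⟩ := hD x (hmem x hx)
    · exact ⟨0, by decide, y, hy, hxy⟩
    · exact ⟨1, by decide, y, hy, hxy⟩
    · exact ⟨2, by decide, y, hy, hxy⟩
  · intro x hx k l b c hb hc hxb hxc
    have hx' := hmem x hx
    fin_cases k <;> fin_cases l <;>
      first
        | rfl
        | exact absurd hb (Set.notMem_empty _)
        | exact absurd hc (Set.notMem_empty _)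
        | exact absurd (hAB x b c hb hc hxb hxc) hx'
        | exact absurd (hAB x c b hc hb hxc hxb) hx'
        | exact absurd (hBC x b c hb hc hxb hxc) hx'
        | exact absurd (hBC x c b hc hb hxc hxb) hx'
        | exact absurd (hCA x b c hb hc hxb hxc) hx'
        | exact absurd (hCA x c b hc hb hxc hxb) hx'

/-- a permutation of the colours -/
theorem exists_perm : ∀ a b g : Fin 4, a ≠ b → a ≠ g → b ≠ g →
    ∃ σ : Equiv.Perm (Fin 4), σ a = 0 ∧ σ b = 1 ∧ σ g = 2 := by decide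

theorem exists_max [Finite V] {A B C : Set V} (hF : Forced G A B C) :
    ∃ A' B' C' : Set V, Forced G A' B' C' ∧ A ∪ B ∪ C ⊆ A' ∪ B' ∪ C' ∧
      ∀ A'' B'' C'' : Set V, Forced G A'' B'' C'' → A' ∪ B' ∪ C' ⊆ A'' ∪ B'' ∪ C'' →
        A'' ∪ B'' ∪ C'' ⊆ A' ∪ B' ∪ C' := by
  let T : Set (Set V) := {T | ∃ A' B' C' : Set V, Forced G A' B' C' ∧ A' ∪ B' ∪ C' = T}
  have hT : A ∪ B ∪ C ∈ T := ⟨A, B, C, hF, rfl⟩
  obtain ⟨M, hM, hmax⟩ := (Set.toFinite T).exists_le_maximal hT
  obtain ⟨A', B', C', hF', rfl⟩ := hmax.1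
  refine ⟨A', B', C', hF', hM, fun A'' B'' C'' h1 h2 => ?_⟩
  exact hmax.2 ⟨A'', B'', C'', h1, rfl⟩ h2

theorem forced_dominating_good [Finite V] {A B C : Set V} (hF : Forced G A B C)
    (hD : Dominates G (A ∪ B ∪ C)) (hex : ∃ Q, Proper G Q)
    (h3 : ∀ Q, Proper G Q → ∃ v, Q v = 3) : ∃ Q, Proper G Q ∧ Good G Q := by
  have := Fintype.ofFinite V
  obtain ⟨A', B', C', hF', hsub, hmax⟩ := exists_max hF
  have hD' : Dominates G (A' ∪ B' ∪ C') := by
    intro x hx
    obtain ⟨y, hy, hxy⟩ := hD x (fun h => hx (hsub h))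
    exact ⟨y, hsub hy, hxy⟩
  obtain ⟨Q, hQ, hg | ⟨a, b, g, hab, hag, hbg, hA, hB, hC⟩⟩ := forced_flat hF' hex
  · exact ⟨Q, hQ, hg⟩
  · obtain ⟨σ, h1, h2, h4⟩ := exists_perm a b g hab hag hbg
    refine frame_good (frame_of_forced hF' hD' hmax) ⟨fun x => σ (Q x), ?_, ?_⟩ h3
    · intro x y hxy h
      exact hQ x y hxy (σ.injective h)
    · intro i x hx
      fin_cases i
      · show σ (Q x) = 0
        rw [hA x hx, h1]
      · show σ (Q x) = 1
        rw [hB x hx, h2]
      · show σ (Q x) = 2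
        rw [hC x hx, h4]
      · exact absurd hx (Set.notMem_empty _)

end Pool.Agent.Helper67.Scheme
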