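import Pool.Agent.Helper57.Force.Forced
import Pool.Agent.Helper58.Scheme.Reduce

set_option autoImplicit false

namespace Pool.Agent.Helper67.Scheme

open Pool.Agent.Helper58.Scheme Pool.Agent.Helper57.Force

universe u

variable {V : Type u} {G : SimpleGraph V}

/-- joined by a walk using only the colours `i`, `j` -/
def Lk (G : SimpleGraph V) (Q : V → Fin 4) (i j : Fin 4) (x y : V) : Prop :=
  ∃ p : G.Walk x y, ∀ z ∈ p.support, Q z = i ∨ Q z = j

theorem Lk.symm {Q : V → Fin 4} {i j : Fin 4} {x y : V} (h : Lk G Q i j x y) :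
    Lk G Q i j y x := by
  obtain ⟨p, hp⟩ := h
  refine ⟨p.reverse, fun z hz => ?_⟩
  rw [SimpleGraph.Walk.support_reverse, List.mem_reverse] at hz
  exact hp z hz

theorem Lk.swap {Q : V → Fin 4} {i j : Fin 4} {x y : V} (h : Lk G Q i j x y) :
    Lk G Q j i x y := by
  obtain ⟨p, hp⟩ := h
  exact ⟨p, fun z hz => (hp z hz).symm⟩

theorem Lk.trans {Q : V → Fin 4} {i j : Fin 4} {x y z : V} (h : Lk G Q i j x y)
    (h' : Lk G Q i j y z) : Lk G Q i j x z := by
  obtain ⟨p, hp⟩ := h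
  obtain ⟨q, hq⟩ := h'
  refine ⟨p.append q, fun t ht => ?_⟩
  rw [SimpleGraph.Walk.mem_support_append_iff] at ht
  rcases ht with ht | ht
  · exact hp t ht
  · exact hq t ht

theorem Lk.refl {Q : V → Fin 4} {i j : Fin 4} {x : V} (h : Q x = i ∨ Q x = j) :
    Lk G Q i j x x := ⟨SimpleGraph.Walk.nil, fun z hz => by simp at hz; rw [hz]; exact h⟩

theorem Lk.adj {Q : V → Fin 4} {i j : Fin 4} {x y : V} (hxy : G.Adj x y)
    (hx : Q x = i ∨ Q x = j) (hy : Q y = i ∨ Q y = j) : Lk G Q i j x y := by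
  refine ⟨hxy.toWalk, fun z hz => ?_⟩
  simp [SimpleGraph.Adj.toWalk] at hz
  rcases hz with rfl | rfl
  · exact hx
  · exact hy

theorem Lk.left {Q : V → Fin 4} {i j : Fin 4} {x y : V} (h : Lk G Q i j x y) :
    Q x = i ∨ Q x = j := by
  obtain ⟨p, hp⟩ := h
  exact hp x p.start_mem_support

theorem Lk.right {Q : V → Fin 4} {i j : Fin 4} {x y : V} (h : Lk G Q i j x y) :
    Q y = i ∨ Q y = j := h.symm.left

theorem Lk.linked {Q : V → Fin 4} {i j : Fin 4} {x y : V} (h : Lk G Q i j x y)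
    (hx : Q x = i) (hy : Q y = j) : Linked G Q x y := by
  obtain ⟨p, hp⟩ := h
  exact ⟨p, fun z hz => by rw [hx, hy]; exact hp z hz⟩

/-- the union of the `(i,j)`-components meeting the set given by `P` -/
def Union (G : SimpleGraph V) (Q : V → Fin 4) (i j : Fin 4) (P : V → Prop) : Set V :=
  {x | ∃ a, P a ∧ Lk G Q i j a x}

theorem union_closed (Q : V → Fin 4) (i j : Fin 4) (P : V → Prop) :
    Closed G Q i j (Union G Q i j P) := by
  constructor
  · rintro x ⟨a, -, h⟩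
    exact h.right
  · rintro x ⟨a, ha, h⟩ y hxy hy
    exact ⟨a, ha, h.trans (Lk.adj hxy h.right hy)⟩

/-- the frame: the flat set with its three classes -/
structure Frame (G : SimpleGraph V) (S : Fin 4 → Set V) : Prop where
  conn : ∀ i j, i ≠ j → i ≠ 3 → j ≠ 3 → Conn G (S i ∪ S j)
  three : ∀ x, x ∉ S 3
  dom : ∀ x, (∀ i, x ∉ S i) → ∃ k, k ≠ 3 ∧ ∃ b ∈ S k, G.Adj x b
  uniq : ∀ x, (∀ i, x ∉ S i) → ∀ k l b c, b ∈ S k → c ∈ S l → G.Adj x b → G.Adj x c → k = l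

/-- the colouring is the fixed one on the frame -/
def Ext (S : Fin 4 → Set V) (Q : V → Fin 4) : Prop := ∀ i, ∀ x ∈ S i, Q x = i

/-- `x` has a neighbour in the class `k` -/
def Cls (G : SimpleGraph V) (S : Fin 4 → Set V) (x : V) (k : Fin 4) : Prop :=
  ∃ b ∈ S k, G.Adj x b

/-- `x` lies in the `(i,j)`-component of the frame -/
def InH (G : SimpleGraph V) (S : Fin 4 → Set V) (Q : V → Fin 4) (i j : Fin 4) (x : V) : Prop :=
  ∃ b ∈ S i ∪ S j, Lk G Q i j x b

theorem Frame.lk {S : Fin 4 → Set V} (hF : Frame G S) {Q : V → Fin 4} (hE : Ext S Q)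
    {i j : Fin 4} (hij : i ≠ j) (hi : i ≠ 3) (hj : j ≠ 3) {x y : V} (hx : x ∈ S i ∪ S j)
    (hy : y ∈ S i ∪ S j) : Lk G Q i j x y := by
  obtain ⟨p, hp⟩ := hF.conn i j hij hi hj x hx y hy
  refine ⟨p, fun z hz => ?_⟩
  rcases hp z hz with h | h
  · exact Or.inl (hE _ _ h)
  · exact Or.inr (hE _ _ h)

theorem InH.swap {S : Fin 4 → Set V} {Q : V → Fin 4} {i j : Fin 4} {x : V}
    (h : InH G S Q i j x) : InH G S Q j i x := by
  obtain ⟨b, hb, hl⟩ := h
  exact ⟨b, hb.symm, hl.swap⟩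

theorem InH.lk {S : Fin 4 → Set V} (hF : Frame G S) {Q : V → Fin 4} (hE : Ext S Q)
    {i j : Fin 4} (hij : i ≠ j) (hi : i ≠ 3) (hj : j ≠ 3) {x b : V} (h : InH G S Q i j x)
    (hb : b ∈ S i ∪ S j) : Lk G Q i j x b := by
  obtain ⟨c, hc, hl⟩ := h
  exact hl.trans (hF.lk hE hij hi hj hc hb)

theorem InH.lk2 {S : Fin 4 → Set V} (hF : Frame G S) {Q : V → Fin 4} (hE : Ext S Q)
    {i j : Fin 4} (hij : i ≠ j) (hi : i ≠ 3) (hj : j ≠ 3) {x y : V} (h : InH G S Q i j x)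
    (h' : InH G S Q i j y) : Lk G Q i j x y := by
  obtain ⟨c, hc, hl⟩ := h'
  exact (h.lk hF hE hij hi hj hc).trans hl.symm

theorem InH.of_lk {S : Fin 4 → Set V} {Q : V → Fin 4} {i j : Fin 4} {x y : V}
    (h : InH G S Q i j x) (h' : Lk G Q i j y x) : InH G S Q i j y := by
  obtain ⟨c, hc, hl⟩ := h
  exact ⟨c, hc, h'.trans hl⟩

/-- (F) a vertex of colour `i` with a neighbour in the class `j` -/
theorem Cls.inH {S : Fin 4 → Set V} {Q : V → Fin 4} (hE : Ext S Q) {i j : Fin 4} {x : V}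
    (h : Cls G S x j) (hx : Q x = i) : InH G S Q i j x := by
  obtain ⟨b, hb, hl⟩ := h
  exact ⟨b, Or.inr hb, Lk.adj hl (Or.inl hx) (Or.inr (hE _ _ hb))⟩

theorem Ext.flip {S : Fin 4 → Set V} {Q : V → Fin 4} (hE : Ext S Q) {i j : Fin 4} {W : Set V}
    (hW : ∀ i, ∀ x ∈ S i, x ∉ W) : Ext S (flip Q i j W) := by
  intro k x hx
  rw [flip_of_notMem (hW k x hx)]
  exact hE k x hx

section mini

variable [Fintype V]

/-- minimal number of vertices of colour 3 among the colourings fixed on the frame -/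
def MiniS (G : SimpleGraph V) (S : Fin 4 → Set V) (Q : V → Fin 4) : Prop :=
  Proper G Q ∧ Ext S Q ∧ ∀ Q', Proper G Q' → Ext S Q' → (three Q).card ≤ (three Q').card

theorem exists_miniS {S : Fin 4 → Set V} (h : ∃ Q, Proper G Q ∧ Ext S Q) : ∃ Q, MiniS G S Q := by
  classical
  obtain ⟨Q0, hQ0⟩ := h
  obtain ⟨Q, hQ, hmin⟩ := WellFounded.has_min
    (InvImage.wf (fun Q : V → Fin 4 => (three Q).card) Nat.lt_wfRel.wf)
    {Q | Proper G Q ∧ Ext S Q} ⟨Q0, hQ0⟩
  exact ⟨Q, hQ.1, hQ.2, fun Q' hQ' hE' => not_lt.mp (fun h => hmin Q' ⟨hQ', hE'⟩ h)⟩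

theorem MiniS.flip {S : Fin 4 → Set V} {Q : V → Fin 4} (h : MiniS G S Q) {i j : Fin 4}
    {W : Set V} (hi : i ≠ 3) (hj : j ≠ 3) (hW : Closed G Q i j W)
    (hS : ∀ i, ∀ x ∈ S i, x ∉ W) : MiniS G S (flip Q i j W) := by
  refine ⟨flip_proper h.1 hW, h.2.1.flip hS, fun Q'' h1 h2 => ?_⟩
  have : three (Pool.Agent.Helper58.Scheme.flip Q i j W) = three Q := by
    ext x; rw [mem_three, mem_three, flip_eq_three hi hj hW.1]
  rw [this]; exact h.2.2 Q'' h1 h2

/-- in a minimal colouring a vertex of colour 3 sees all other colours -/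
theorem MiniS.sees {S : Fin 4 → Set V} (hF : Frame G S) {Q : V → Fin 4} (h : MiniS G S Q) {v : V}
    (hv : Q v = 3) {i : Fin 4} (hi : i ≠ 3) : ∃ x, G.Adj v x ∧ Q x = i := by
  classical
  by_contra hcon
  push Not at hcon
  have hprop : Proper G (Function.update Q v i) := by
    intro x y hxy
    by_cases hx : x = v
    · subst hx
      have hy : y ≠ x := fun e => G.loopless.irrefl x (by rw [e] at hxy; exact hxy)
      rw [Function.update_self, Function.update_of_ne hy]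
      exact (hcon y hxy).symm
    · by_cases hy : y = v
      · subst hy
        rw [Function.update_self, Function.update_of_ne hx]
        exact hcon x hxy.symm
      · rw [Function.update_of_ne hx, Function.update_of_ne hy]; exact h.1 x y hxy
  have hext : Ext S (Function.update Q v i) := by
    intro k x hx
    have hxv : x ≠ v := by
      rintro rfl
      have := h.2.1 k x hx
      rw [hv] at this
      rw [← this] at hx
      exact hF.three x hx
    rw [Function.update_of_ne hxv]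
    exact h.2.1 k x hx
  have hlt : (three (Function.update Q v i)).card < (three Q).card := by
    apply Finset.card_lt_card
    rw [Finset.ssubset_iff_of_subset]
    · refine ⟨v, mem_three.mpr hv, ?_⟩
      rw [mem_three, Function.update_self]; exact hi
    · intro x hx
      rw [mem_three] at hx ⊢
      by_cases hxv : x = v
      · subst hxv; exact hv
      · rwa [Function.update_of_ne hxv] at hx
  exact absurd (h.2.2 _ hprop hext) (not_le.mpr hlt)

/-- irreducibility -/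
theorem MiniS.irr {S : Fin 4 → Set V} (hF : Frame G S) {Q : V → Fin 4} (h : MiniS G S Q) {v : V}
    (hv : Q v = 3) {i j : Fin 4} (hi : i ≠ 3)
    (hj : j ≠ 3) (hij : i ≠ j) {W : Set V} (hW : Closed G Q i j W)
    (hS : ∀ i, ∀ x ∈ S i, x ∉ W)
    (h1 : ∀ x, G.Adj v x → Q x = i → x ∈ W) (h2 : ∀ x, G.Adj v x → Q x = j → x ∉ W) : False := by
  have hm := h.flip hi hj hW hS
  have hv' : Pool.Agent.Helper58.Scheme.flip Q i j W v = 3 := (flip_eq_three hi hj hW.1 v).mpr hv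
  obtain ⟨x, hx, hxi⟩ := hm.sees hF hv' hi
  by_cases hxW : x ∈ W
  · rw [flip_of_mem hxW] at hxi
    rcases hW.1 x hxW with hc | hc
    · rw [hc, Equiv.swap_apply_left] at hxi; exact hij hxi.symm
    · exact h2 x hx hc hxW
  · rw [flip_of_notMem hxW] at hxi
    exact hxW (h1 x hx hxi)

/-- (A) two neighbours of `w` of the colours `i`, `j` are linked -/
theorem MiniS.link {S : Fin 4 → Set V} (hF : Frame G S) {Q : V → Fin 4} (h : MiniS G S Q) {v : V}
    (hv : Q v = 3) {i j : Fin 4} (hi : i ≠ 3) (hj : j ≠ 3) (hij : i ≠ j) :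
    ∃ x y, G.Adj v x ∧ G.Adj v y ∧ Q x = i ∧ Q y = j ∧ Lk G Q i j x y := by
  by_contra hcon
  push Not at hcon
  by_cases hmeet : ∀ k, ∀ x ∈ S k, x ∉ Union G Q i j (fun x => G.Adj v x ∧ Q x = i)
  · refine h.irr hF hv hi hj hij (union_closed Q i j (fun x => G.Adj v x ∧ Q x = i)) hmeet ?_ ?_
    · intro x hx hxi
      exact ⟨x, ⟨hx, hxi⟩, Lk.refl (Or.inl hxi)⟩
    · rintro x hx hxj ⟨a, ⟨ha, hai⟩, hl⟩
      exact hcon a x ha hx hai hxj hl
  · push Not at hmeet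
    obtain ⟨k, x, hxk, a, ⟨ha, hai⟩, hax⟩ := hmeet
    have hxij : x ∈ S i ∪ S j := by
      have hxc := h.2.1 k x hxk
      rcases hax.right with h1 | h1
      · rw [hxc] at h1; rw [h1] at hxk; exact Or.inl hxk
      · rw [hxc] at h1; rw [h1] at hxk; exact Or.inr hxk
    refine h.irr hF hv hj hi hij.symm (union_closed Q j i (fun x => G.Adj v x ∧ Q x = j)) ?_ ?_ ?_
    · rintro l y hyl ⟨c, ⟨hc, hcj⟩, hcy⟩
      have hyij : y ∈ S i ∪ S j := by
        have hyc := h.2.1 l y hyl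
        rcases hcy.right with h1 | h1
        · rw [hyc] at h1; rw [h1] at hyl; exact Or.inr hyl
        · rw [hyc] at h1; rw [h1] at hyl; exact Or.inl hyl
      exact hcon a c ha hc hai hcj ((hax.trans (hF.lk h.2.1 hij hi hj hxij hyij)).trans
        hcy.swap.symm)
    · intro x hx hxi
      exact ⟨x, ⟨hx, hxi⟩, Lk.refl (Or.inl hxi)⟩
    · rintro x hx hxj ⟨c, ⟨hc, hcj⟩, hl⟩
      exact hcon x c hx hc hxj hcj hl.swap.symm

end mini

/-- scheme at `w`: `b` in the frame, `x` and `y` neighbours of `w` -/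
theorem good_w {S : Fin 4 → Set V} (hF : Frame G S) {Q : V → Fin 4} (hE : Ext S Q)
    {α β γ : Fin 4} (hc : Cols α β γ) {w b x y : V} (hw : Q w = 3) (hb : b ∈ S α)
    (hwb : G.Adj w b) (hwx : G.Adj w x) (hwy : G.Adj w y) (hx : Q x = β) (hy : Q y = γ)
    (hxH : InH G S Q α β x) (hyH : InH G S Q α γ y) (hxy : Lk G Q β γ x y) : Good G Q :=
  good_root hc hw (hE _ _ hb) hx hy hwb hwx hwy
    ((hxH.lk hF hE hc.ab hc.a3 hc.b3 (Or.inl hb)).symm.linked (hE _ _ hb) hx)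
    ((hyH.lk hF hE hc.ac hc.a3 hc.c3 (Or.inl hb)).symm.linked (hE _ _ hb) hy)
    (hxy.linked hx hy)

theorem Cols.swap {α β γ : Fin 4} (hc : Cols α β γ) : Cols α γ β :=
  ⟨hc.ac, hc.ab, hc.bc.symm, hc.a3, hc.c3, hc.b3⟩

/-- the class of a vertex outside the frame is not its colour -/
theorem cls_cases {S : Fin 4 → Set V} (hF : Frame G S) {Q : V → Fin 4} (hQ : Proper G Q)
    (hE : Ext S Q) {α β γ : Fin 4} (hc : Cols α β γ) {x : V} (hx : ∀ i, x ∉ S i)
    (hxα : Q x = α) : Cls G S x β ∨ Cls G S x γ := by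
  obtain ⟨k, hk3, b, hb, hxb⟩ := hF.dom x hx
  rcases hc.exh k with rfl | rfl | rfl | rfl
  · exact absurd (hxα.trans (hE _ _ hb).symm) (hQ _ _ hxb)
  · exact Or.inl ⟨b, hb, hxb⟩
  · exact Or.inr ⟨b, hb, hxb⟩
  · exact absurd rfl hk3

/-- a neighbour of `w` whose colour is not the class of `w` is outside the frame -/
theorem nbr_out {S : Fin 4 → Set V} (hF : Frame G S) {Q : V → Fin 4} (hE : Ext S Q)
    {w b x : V} {α i : Fin 4} (hwS : ∀ i, w ∉ S i) (hb : b ∈ S α) (hwb : G.Adj w b)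
    (hwx : G.Adj w x) (hx : Q x = i) (hi : i ≠ α) : ∀ k, x ∉ S k := by
  intro k hk
  have h1 := hF.uniq w hwS k α x b hk hb hwx hwb
  have h2 := hE k x hk
  exact hi (by rw [← hx, h2, h1])

section mini2

variable [Fintype V]

/-- making the colour `γ` around `w` of class `α` only -/
theorem step {S : Fin 4 → Set V} (hF : Frame G S) {Q : V → Fin 4} (hM : MiniS G S Q)
    {α β γ : Fin 4} (hc : Cols α β γ) {w b : V} (hw : Q w = 3) (hwS : ∀ i, w ∉ S i)
    (hb : b ∈ S α) (hwb : G.Adj w b)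
    (h1 : ∀ x, G.Adj w x → Q x = γ → Cls G S x β → ¬ InH G S Q α γ x)
    (h2 : ∀ u x, G.Adj w u → G.Adj w x → Q u = α → Cls G S u β → Q x = γ → Cls G S x β →
      ¬ Lk G Q α γ u x) :
    ∃ Q', MiniS G S Q' ∧ Q' w = 3 ∧ (∀ x, Q' x = β ↔ Q x = β) ∧
      ∀ x, G.Adj w x → Q' x = γ → Cls G S x α := by
  classical
  have hp := hM.1
  have hE := hM.2.1
  let W := Union G Q α γ (fun x => G.Adj w x ∧ Q x = γ ∧ Cls G S x β)
  have hcl : Closed G Q α γ W := union_closed _ _ _ _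
  have hS : ∀ i, ∀ x ∈ S i, x ∉ W := by
    rintro i x hx ⟨a, ⟨ha1, ha2, ha3⟩, hl⟩
    refine h1 a ha1 ha2 ha3 ⟨x, ?_, hl⟩
    have hxc := hE i x hx
    rcases hl.right with h | h
    · rw [hxc] at h; rw [h] at hx; exact Or.inl hx
    · rw [hxc] at h; rw [h] at hx; exact Or.inr hx
  refine ⟨flip Q α γ W, hM.flip hc.a3 hc.c3 hcl hS,
    (flip_eq_three hc.a3 hc.c3 hcl.1 w).mpr hw, ?_, ?_⟩
  · intro x
    by_cases hx : x ∈ W
    · rw [flip_of_mem hx]
      rcases hcl.1 x hx with h | h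
      · rw [h, Equiv.swap_apply_left]
        exact ⟨fun h' => absurd h'.symm hc.bc, fun h' => absurd h' hc.ab⟩
      · rw [h, Equiv.swap_apply_right]
        exact ⟨fun h' => absurd h' hc.ab, fun h' => absurd h'.symm hc.bc⟩
    · rw [flip_of_notMem hx]
  · intro x hwx hx
    by_cases hxW : x ∈ W
    · exfalso
      rw [flip_of_mem hxW] at hx
      rcases hcl.1 x hxW with h | h
      · obtain ⟨a, ⟨ha1, ha2, ha3⟩, hl⟩ := hxW
        have hxS : ∀ i, x ∉ S i := fun i hi => hS i x hi ⟨a, ⟨ha1, ha2, ha3⟩, hl⟩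
        rcases cls_cases hF hp hE hc hxS h with h' | h'
        · exact h2 x a hwx ha1 h h' ha2 ha3 hl.symm
        · exact h1 a ha1 ha2 ha3 ((h'.inH hE h).of_lk hl)
      · rw [h, Equiv.swap_apply_right] at hx
        exact hc.ac hx
    · rw [flip_of_notMem hxW] at hx
      have hxS := nbr_out hF hE hwS hb hwb hwx hx hc.ac.symm
      obtain ⟨k, hk3, c, hk, hxc⟩ := hF.dom x hxS
      rcases hc.exh k with rfl | rfl | rfl | rfl
      · exact ⟨c, hk, hxc⟩
      · exact absurd ⟨x, ⟨hwx, hx, c, hk, hxc⟩, Lk.refl (Or.inr hx)⟩ hxW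
      · exact absurd (hx.trans (hE _ _ hk).symm) (hp _ _ hxc)
      · exact absurd rfl hk3

omit [Fintype V] in
/-- (B1) -/
theorem b1 {S : Fin 4 → Set V} (hF : Frame G S) {Q : V → Fin 4} (hE : Ext S Q)
    {α β γ : Fin 4} (hc : Cols α β γ) {w b x y : V} (hw : Q w = 3)
    (hb : b ∈ S α) (hwb : G.Adj w b) (hwx : G.Adj w x) (hwy : G.Adj w y) (hx : Q x = β)
    (hy : Q y = γ) (hxc : Cls G S x α) (hyc : Cls G S y α) (hl : Lk G Q β γ x y) : Good G Q :=
  good_w hF hE hc hw hb hwb hwx hwy hx hy (hxc.inH hE hx).swap (hyc.inH hE hy).swap hl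

/-- case I -/
theorem case1 {S : Fin 4 → Set V} (hF : Frame G S) (hbad : ∀ Q, Proper G Q → ¬ Good G Q)
    {Q : V → Fin 4} (hM : MiniS G S Q)
    {α β γ : Fin 4} (hc : Cols α β γ) {w b p : V} (hw : Q w = 3) (hwS : ∀ i, w ∉ S i)
    (hb : b ∈ S α) (hwb : G.Adj w b) (hwp : G.Adj w p) (hp : Q p = β) (hpc : Cls G S p α)
    (hpH : InH G S Q β γ p) : False := by
  have hE := hM.2.1
  -- B2
  have h1 : ∀ x, G.Adj w x → Q x = γ → Cls G S x β → ¬ InH G S Q α γ x := by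
    intro x hwx hx hxc hxH
    exact hbad Q hM.1 (good_w hF hE hc hw hb hwb hwp hwx hp hx (hpc.inH hE hp).swap hxH
      (hpH.lk2 hF hE hc.bc hc.b3 hc.c3 (hxc.inH hE hx).swap))
  have h2 : ∀ u x, G.Adj w u → G.Adj w x → Q u = α → Cls G S u β → Q x = γ → Cls G S x β →
      ¬ Lk G Q α γ u x := by
    intro u x hwu hwx hu huc hx hxc hl
    refine hbad Q hM.1 (good_root hc hw hu hp hx hwu hwp hwx ?_ (hl.linked hu hx) ?_)
    · exact ((huc.inH hE hu).lk2 hF hE hc.ab hc.a3 hc.b3 (hpc.inH hE hp).swap).linked hu hp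
    · exact (hpH.lk2 hF hE hc.bc hc.b3 hc.c3 (hxc.inH hE hx).swap).linked hp hx
  obtain ⟨Q1, hM1, hw1, hβ1, hγ1⟩ := step hF hM hc hw hwS hb hwb h1 h2
  have hE1 := hM1.2.1
  obtain ⟨x, y, hwx, hwy, hx, hy, hl⟩ := hM1.link hF hw1 hc.b3 hc.c3 hc.bc
  have hyc := hγ1 y hwy hy
  have hxS := nbr_out hF hE1 hwS hb hwb hwx hx hc.ab.symm
  have hxc : Cls G S x γ := by
    rcases cls_cases hF hM1.1 hE1 (α := β) (β := α) (γ := γ)
      ⟨hc.ab.symm, hc.bc, hc.ac, hc.b3, hc.a3, hc.c3⟩ hxS hx with h | h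
    · exact absurd (b1 hF hE1 hc hw1 hb hwb hwx hwy hx hy h hyc hl) (hbad Q1 hM1.1)
    · exact h
  have hyH : InH G S Q1 β γ y := (hxc.inH hE1 hx).of_lk hl.symm
  have h3 : ∀ x, G.Adj w x → Q1 x = β → Cls G S x γ → ¬ InH G S Q1 α β x := by
    intro x hwx hx hxc hxH
    exact hbad Q1 hM1.1 (good_w hF hE1 hc hw1 hb hwb hwx hwy hx hy hxH (hyc.inH hE1 hy).swap
      ((hxc.inH hE1 hx).lk2 hF hE1 hc.bc hc.b3 hc.c3 hyH))
  have h4 : ∀ u x, G.Adj w u → G.Adj w x → Q1 u = α → Cls G S u γ → Q1 x = β → Cls G S x γ →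
      ¬ Lk G Q1 α β u x := by
    intro u x hwu hwx hu huc hx hxc hl
    refine hbad Q1 hM1.1 (good_root hc hw1 hu hx hy hwu hwx hwy (hl.linked hu hx) ?_ ?_)
    · exact ((huc.inH hE1 hu).lk2 hF hE1 hc.ac hc.a3 hc.c3 (hyc.inH hE1 hy).swap).linked hu hy
    · exact ((hxc.inH hE1 hx).lk2 hF hE1 hc.bc hc.b3 hc.c3 hyH).linked hx hy
  obtain ⟨Q2, hM2, hw2, hγ2, hβ2⟩ := step hF hM1 (Cols.swap hc) hw1 hwS hb hwb h3 h4
  obtain ⟨x', y', hwx', hwy', hx', hy', hl'⟩ := hM2.link hF hw2 hc.b3 hc.c3 hc.bc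
  exact hbad Q2 hM2.1 (b1 hF hM2.2.1 hc hw2 hb hwb hwx' hwy' hx' hy' (hβ2 x' hwx' hx')
    (hγ1 y' hwy' ((hγ2 y').mp hy')) hl')

omit [Fintype V] in
/-- first vertex of a walk in a set -/
theorem first_in {Q : V → Fin 4} {i j : Fin 4} {C : Set V} : ∀ {s t : V} (p : G.Walk s t),
    (∀ z ∈ p.support, Q z = i ∨ Q z = j) → s ∉ C → t ∈ C →
    ∃ y z, G.Adj y z ∧ y ∉ C ∧ z ∈ C ∧ (Q z = i ∨ Q z = j) ∧
      ∃ q : G.Walk s y, ∀ r ∈ q.support, r ∉ C ∧ (Q r = i ∨ Q r = j) := by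
  intro s t p
  induction p with
  | nil => intro _ h1 h2; exact absurd h2 h1
  | @cons s s1 t h p ih =>
    intro hp h1 h2
    have hs : Q s = i ∨ Q s = j := hp s (by simp)
    by_cases h3 : s1 ∈ C
    · refine ⟨s, s1, h, h1, h3, hp s1 ?_, SimpleGraph.Walk.nil, ?_⟩
      · rw [SimpleGraph.Walk.support_cons]
        exact List.mem_cons_of_mem _ p.start_mem_support
      · intro r hr
        simp at hr
        rw [hr]
        exact ⟨h1, hs⟩
    · obtain ⟨y, z, hyz, hy, hz, hz', q, hq⟩ := ih (fun z hz => hp z (by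
        rw [SimpleGraph.Walk.support_cons]; exact List.mem_cons_of_mem _ hz)) h3 h2
      refine ⟨y, z, hyz, hy, hz, hz', SimpleGraph.Walk.cons h q, ?_⟩
      intro r hr
      rw [SimpleGraph.Walk.support_cons] at hr
      rcases List.mem_cons.mp hr with rfl | hr
      · exact ⟨h1, hs⟩
      · exact hq r hr

/-- case III, assuming that the neighbours of `w` of colour `γ` and class `β` avoid `H α γ` -/
theorem case3 {S : Fin 4 → Set V} (hF : Frame G S) (hbad : ∀ Q, Proper G Q → ¬ Good G Q)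
    {Q : V → Fin 4} (hM : MiniS G S Q)
    {α β γ : Fin 4} (hc : Cols α β γ) {w b : V} (hw : Q w = 3) (hwS : ∀ i, w ∉ S i)
    (hb : b ∈ S α) (hwb : G.Adj w b)
    (h1 : ∀ x, G.Adj w x → Q x = γ → Cls G S x β → ¬ InH G S Q α γ x) : False := by
  have hE := hM.2.1
  have hcγ : Cols γ α β := ⟨hc.ac.symm, hc.bc.symm, hc.ab, hc.c3, hc.a3, hc.b3⟩
  have hcβ : Cols β α γ := ⟨hc.ab.symm, hc.bc, hc.ac, hc.b3, hc.a3, hc.c3⟩
  -- a pair `u`, `x3`
  obtain ⟨u, x3, hwu, hwx3, hu, huc, hx3, hx3c, hl3⟩ : ∃ u x, G.Adj w u ∧ G.Adj w x ∧ Q u = α ∧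
      Cls G S u β ∧ Q x = γ ∧ Cls G S x β ∧ Lk G Q α γ u x := by
    by_contra hcon
    have h2 : ∀ u x, G.Adj w u → G.Adj w x → Q u = α → Cls G S u β → Q x = γ → Cls G S x β →
        ¬ Lk G Q α γ u x := fun u x a1 a2 a3 a4 a5 a6 a7 => hcon ⟨u, x, a1, a2, a3, a4, a5, a6, a7⟩
    obtain ⟨Q1, hM1, hw1, hβ1, hγ1⟩ := step hF hM hc hw hwS hb hwb h1 h2
    have hE1 := hM1.2.1
    obtain ⟨x, y, hwx, hwy, hx, hy, hl⟩ := hM1.link hF hw1 hc.b3 hc.c3 hc.bc
    have hyc := hγ1 y hwy hy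
    have hxS := nbr_out hF hE1 hwS hb hwb hwx hx hc.ab.symm
    rcases cls_cases hF hM1.1 hE1 hcβ hxS hx with h | h
    · exact hbad Q1 hM1.1 (b1 hF hE1 hc hw1 hb hwb hwx hwy hx hy h hyc hl)
    · exact case1 hF hbad hM1 (Cols.swap hc) hw1 hwS hb hwb hwy hy hyc
        ((h.inH hE1 hx).of_lk hl.symm).swap
  -- the neighbours of colour `β` and class `γ` avoid `H α β`
  have h3 : ∀ x, G.Adj w x → Q x = β → Cls G S x γ → ¬ InH G S Q α β x := by
    intro x hwx hx hxc hxH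
    refine hbad Q hM.1 (good_root hc hw hu hx hx3 hwu hwx hwx3 ?_ (hl3.linked hu hx3) ?_)
    · exact ((huc.inH hE hu).lk2 hF hE hc.ab hc.a3 hc.b3 hxH).linked hu hx
    · exact ((hxc.inH hE hx).lk2 hF hE hc.bc hc.b3 hc.c3 (hx3c.inH hE hx3).swap).linked hx hx3
  obtain ⟨u', x', hwu', hwx', hu', huc', hx', hxc', hl'⟩ : ∃ u x, G.Adj w u ∧ G.Adj w x ∧
      Q u = α ∧ Cls G S u γ ∧ Q x = β ∧ Cls G S x γ ∧ Lk G Q α β u x := by
    by_contra hcon
    have h4 : ∀ u x, G.Adj w u → G.Adj w x → Q u = α → Cls G S u γ → Q x = β → Cls G S x γ →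
        ¬ Lk G Q α β u x := fun u x a1 a2 a3 a4 a5 a6 a7 => hcon ⟨u, x, a1, a2, a3, a4, a5, a6, a7⟩
    obtain ⟨Q1, hM1, hw1, hγ1, hβ1⟩ := step hF hM (Cols.swap hc) hw hwS hb hwb h3 h4
    have hE1 := hM1.2.1
    obtain ⟨x, y, hwx, hwy, hx, hy, hl⟩ := hM1.link hF hw1 hc.b3 hc.c3 hc.bc
    have hxc := hβ1 x hwx hx
    have hyS := nbr_out hF hE1 hwS hb hwb hwy hy hc.ac.symm
    rcases cls_cases hF hM1.1 hE1 hcγ hyS hy with h | h
    · exact hbad Q1 hM1.1 (b1 hF hE1 hc hw1 hb hwb hwx hwy hx hy hxc h hl)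
    · exact case1 hF hbad hM1 hc hw1 hwS hb hwb hwx hx hxc ((h.inH hE1 hy).swap.of_lk hl)
  -- the `(γ, 3)`-component of `w`
  have hcl := comp_closed (G := G) Q γ 3 w
  have hwC : w ∈ Comp G Q γ 3 w := self_mem_comp (Or.inr hw)
  by_cases hmeet : ∃ c ∈ S γ, c ∈ Comp G Q γ 3 w
  · obtain ⟨c, hcS, hcC⟩ := hmeet
    have hcγ' := hE _ _ hcS
    have hlw : Lk G Q γ 3 w c := hcC
    refine hbad Q hM.1 (good_of_four (a := w) (b := u') (c := x') (d := c) ?_ ?_ ?_ ?_ ?_ ?_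
      (Linked.of_adj hwu') (Linked.of_adj hwx') (hlw.swap.linked hw hcγ') (hl'.linked hu' hx')
      (((huc'.inH hE hu').lk hF hE hc.ac hc.a3 hc.c3 (Or.inr hcS)).linked hu' hcγ')
      (((hxc'.inH hE hx').lk hF hE hc.bc hc.b3 hc.c3 (Or.inr hcS)).linked hx' hcγ'))
    · rw [hw, hu']; exact hc.a3.symm
    · rw [hw, hx']; exact hc.b3.symm
    · rw [hw, hcγ']; exact hc.c3.symm
    · rw [hu', hx']; exact hc.ab
    · rw [hu', hcγ']; exact hc.ac
    · rw [hx', hcγ']; exact hc.bc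
  · push Not at hmeet
    have hS : ∀ i, ∀ x ∈ S i, x ∉ Comp G Q γ 3 w := by
      intro i x hx hxC
      have hxc := hE i x hx
      rcases hcl.1 x hxC with h | h
      · rw [hxc] at h; rw [h] at hx; exact hmeet x hx hxC
      · rw [hxc] at h; rw [h] at hx; exact hF.three x hx
    have hp' := flip_proper hM.1 hcl
    have hE' := hE.flip (i := γ) (j := 3) hS
    -- the first vertex
    obtain ⟨p, hpp⟩ := hl3
    have huC : u ∉ Comp G Q γ 3 w := by
      intro h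
      rcases hcl.1 u h with h | h
      · rw [hu] at h; exact hc.ac h
      · rw [hu] at h; exact hc.a3 h
    have hx3C : x3 ∈ Comp G Q γ 3 w := hcl.2 w hwC x3 hwx3 (Or.inl hx3)
    obtain ⟨y, z, hyz, hyC, hzC, hzc, q, hq⟩ := first_in p hpp huC hx3C
    have hz : Q z = γ := by
      rcases hzc with h | h
      · rcases hcl.1 z hzC with h' | h'
        · exact h'
        · rw [h] at h'; exact absurd h' hc.a3
      · exact h
    have hy : Q y = α := by
      have := (hq y q.end_mem_support).2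
      rcases this with h | h
      · exact h
      · exact absurd (h.trans hz.symm) (hM.1 _ _ hyz)
    -- all vertices of this component have class `β`
    have hcls : ∀ t, Lk G Q α γ u t → Cls G S t β := by
      intro t ht
      have hnot : ¬ InH G S Q α γ t := fun h => h1 x3 hwx3 hx3 hx3c
        (h.of_lk ((Lk.symm ⟨p, hpp⟩).trans ht))
      have htS : ∀ k, t ∉ S k := by
        intro k hk
        have htc := hE k t hk
        apply hnot
        refine ⟨t, ?_, Lk.refl ht.right⟩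
        rcases ht.right with h | h
        · rw [htc] at h; rw [h] at hk; exact Or.inl hk
        · rw [htc] at h; rw [h] at hk; exact Or.inr hk
      rcases ht.right with h | h
      · rcases cls_cases hF hM.1 hE hc htS h with h' | h'
        · exact h'
        · exact absurd (h'.inH hE h) hnot
      · rcases cls_cases hF hM.1 hE hcγ htS h with h' | h'
        · exact absurd (h'.inH hE h).swap hnot
        · exact h'
    have huy : Lk G Q α γ u y := ⟨q, fun r hr => (hq r hr).2⟩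
    have huz : Lk G Q α γ u z := huy.trans (Lk.adj hyz (Or.inl hy) (Or.inr hz))
    have hyβ := hcls y huy
    obtain ⟨c2, hc2, hzc2⟩ := hcls z huz
    -- colours in the new colouring
    have hy' : flip Q γ 3 (Comp G Q γ 3 w) y = α := by rw [flip_of_notMem hyC]; exact hy
    have hz' : flip Q γ 3 (Comp G Q γ 3 w) z = 3 := by
      rw [flip_of_mem hzC, hz, Equiv.swap_apply_left]
    have hw' : flip Q γ 3 (Comp G Q γ 3 w) w = γ := by
      rw [flip_of_mem hwC, hw, Equiv.swap_apply_right]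
    have hc2' : flip Q γ 3 (Comp G Q γ 3 w) c2 = β := hE' _ _ hc2
    have hx'C : x' ∉ Comp G Q γ 3 w := by
      intro h
      rcases hcl.1 x' h with h | h
      · rw [hx'] at h; exact hc.bc h
      · rw [hx'] at h; exact hc.b3 h
    have hx'' : flip Q γ 3 (Comp G Q γ 3 w) x' = β := by rw [flip_of_notMem hx'C]; exact hx'
    -- links
    have l1 : Lk G (flip Q γ 3 (Comp G Q γ 3 w)) 3 γ z w := by
      classical
      obtain ⟨r, hr⟩ := hzC
      refine Lk.symm ⟨r, fun t ht => ?_⟩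
      have htC : t ∈ Comp G Q γ 3 w := by
        have : Lk G Q γ 3 w t := ⟨r.takeUntil t ht, fun s hs =>
          hr s (SimpleGraph.Walk.support_takeUntil_subset_support r ht hs)⟩
        exact this
      rw [flip_of_mem htC]
      rcases hcl.1 t htC with h | h
      · rw [h, Equiv.swap_apply_left]; exact Or.inl rfl
      · rw [h, Equiv.swap_apply_right]; exact Or.inr rfl
    have l2 : Lk G (flip Q γ 3 (Comp G Q γ 3 w)) α β y c2 :=
      (hyβ.inH hE' hy').lk hF hE' hc.ab hc.a3 hc.b3 (Or.inr hc2)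
    have l3 : Lk G (flip Q γ 3 (Comp G Q γ 3 w)) α γ y w := by
      have h5 : Lk G (flip Q γ 3 (Comp G Q γ 3 w)) α γ u y := by
        refine ⟨q, fun r hr => ?_⟩
        rw [flip_of_notMem (hq r hr).1]
        exact (hq r hr).2
      exact h5.symm.trans (Lk.adj hwu.symm h5.left (Or.inr hw'))
    have l4 : Lk G (flip Q γ 3 (Comp G Q γ 3 w)) β γ c2 w := by
      have h6 := (hxc'.inH hE' hx'').lk hF hE' hc.bc hc.b3 hc.c3 (Or.inl hc2)
      exact h6.symm.trans (Lk.adj hwx'.symm (Or.inl hx'') (Or.inr hw'))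
    refine hbad _ hp' (good_of_four (a := z) (b := y) (c := c2) (d := w) ?_ ?_ ?_ ?_ ?_ ?_
      (Linked.of_adj hyz.symm) (Linked.of_adj hzc2) (l1.linked hz' hw')
      (l2.linked hy' hc2') (l3.linked hy' hw') (l4.linked hc2' hw'))
    · rw [hz', hy']; exact hc.a3.symm
    · rw [hz', hc2']; exact hc.b3.symm
    · rw [hz', hw']; exact hc.c3.symm
    · rw [hy', hc2']; exact hc.ab
    · rw [hy', hw']; exact hc.ac
    · rw [hc2', hw']; exact hc.bc

/-- **Main theorem for frames.** -/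
theorem frame_good {S : Fin 4 → Set V} (hF : Frame G S) (hex : ∃ Q, Proper G Q ∧ Ext S Q)
    (h3 : ∀ Q, Proper G Q → ∃ v, Q v = 3) : ∃ Q, Proper G Q ∧ Good G Q := by
  by_contra hcon
  have hbad : ∀ Q, Proper G Q → ¬ Good G Q := fun Q h1 h2 => hcon ⟨Q, h1, h2⟩
  obtain ⟨Q, hM⟩ := exists_miniS hex
  have hE := hM.2.1
  obtain ⟨w, hw⟩ := h3 Q hM.1
  have hwS : ∀ i, w ∉ S i := by
    intro i hi
    have := hE i w hi
    rw [hw] at this
    rw [← this] at hi
    exact hF.three w hi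
  obtain ⟨α, hα3, b, hb, hwb⟩ := hF.dom w hwS
  obtain ⟨β, γ, hc⟩ : ∃ β γ, Cols α β γ := by
    have : ∀ α : Fin 4, α ≠ 3 → ∃ β γ, α ≠ β ∧ α ≠ γ ∧ β ≠ γ ∧ β ≠ 3 ∧ γ ≠ 3 := by decide
    obtain ⟨β, γ, h1, h2, h3, h4, h5⟩ := this α hα3
    exact ⟨β, γ, h1, h2, h3, hα3, h4, h5⟩
  by_cases h : ∀ x, G.Adj w x → Q x = γ → Cls G S x β → ¬ InH G S Q α γ x
  · exact case3 hF hbad hM hc hw hwS hb hwb h
  · push Not at h
    obtain ⟨y, hwy, hy, hyc, hyH⟩ := h
    refine case3 hF hbad hM (Cols.swap hc) hw hwS hb hwb ?_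
    intro x hwx hx hxc hxH
    -- (B4)
    exact hbad Q hM.1 (good_w hF hE hc hw hb hwb hwx hwy hx hy hxH hyH
      ((hxc.inH hE hx).lk2 hF hE hc.bc hc.b3 hc.c3 (hyc.inH hE hy).swap))

end mini2

end Pool.Agent.Helper67.Scheme
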