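import Pool.Agent.Helper67.Scheme.Reduce

set_option autoImplicit false

namespace Pool.Agent.Helper67.Scheme

open Pool.Agent.Helper58.Scheme Pool.Agent.Helper57.Force

universe u

/-- `G` has no induced path on five vertices. -/
def P5Free {V : Type u} (G : SimpleGraph V) : Prop :=
  ∀ a b c d e : V, G.Adj a b → G.Adj b c → G.Adj c d → G.Adj d e →
    G.Adj a c ∨ G.Adj a d ∨ G.Adj a e ∨ G.Adj b d ∨ G.Adj b e ∨ G.Adj c e

variable {V : Type u} {G : SimpleGraph V}

theorem P5Free.elim (hP : P5Free G) {a b c d e : V} (h1 : G.Adj a b) (h2 : G.Adj b c)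
    (h3 : G.Adj c d) (h4 : G.Adj d e) (n1 : ¬ G.Adj a c) (n2 : ¬ G.Adj a d) (n3 : ¬ G.Adj a e)
    (n4 : ¬ G.Adj b d) (n5 : ¬ G.Adj b e) (n6 : ¬ G.Adj c e) : False := by
  rcases hP a b c d e h1 h2 h3 h4 with h | h | h | h | h | h
  · exact n1 h
  · exact n2 h
  · exact n3 h
  · exact n4 h
  · exact n5 h
  · exact n6 h

theorem P5Free.induce (hP : P5Free G) (S : Set V) : P5Free (G.induce S) :=
  fun a b c d e h1 h2 h3 h4 => hP a b c d e h1 h2 h3 h4

/-- a closed propagation set with three nonempty classes -/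
structure TF (G : SimpleGraph V) (S : Fin 3 → Set V) : Prop where
  conn : ∀ i j, i ≠ j → Conn G (S i ∪ S j)
  nbr : ∀ i j, i ≠ j → ∀ x ∈ S i, ∃ y ∈ S j, G.Adj x y
  ind : ∀ i, ∀ x ∈ S i, ∀ y ∈ S i, ¬ G.Adj x y
  uniq : ∀ x, (∀ i, x ∉ S i) → ∀ i j b c, b ∈ S i → c ∈ S j → G.Adj x b → G.Adj x c → i = j
  ne : ∀ i, (S i).Nonempty

/-- vertices outside with a neighbour in the class `i` -/
def RR (G : SimpleGraph V) (S : Fin 3 → Set V) (i : Fin 3) (x : V) : Prop :=
  (∀ k, x ∉ S k) ∧ ∃ b ∈ S i, G.Adj x b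

/-- vertices outside without neighbours in the three classes -/
def R0 (G : SimpleGraph V) (S : Fin 3 → Set V) (x : V) : Prop :=
  (∀ k, x ∉ S k) ∧ ∀ k, ∀ b ∈ S k, ¬ G.Adj x b

theorem third3 : ∀ i j : Fin 3, i ≠ j → ∃ l, l ≠ i ∧ l ≠ j := by decide

theorem other3 : ∀ i : Fin 3, ∃ j, j ≠ i := by decide

theorem trichotomy {S : Fin 3 → Set V} (x : V) :
    (∃ i, x ∈ S i) ∨ (∃ i, RR G S i x) ∨ R0 G S x := by
  by_cases h : ∃ i, x ∈ S i
  · exact Or.inl h
  · push Not at h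
    by_cases h' : ∃ i, ∃ b ∈ S i, G.Adj x b
    · obtain ⟨i, hb⟩ := h'
      exact Or.inr (Or.inl ⟨i, h, hb⟩)
    · push Not at h'
      exact Or.inr (Or.inr ⟨h, h'⟩)

/-- a vertex of `R i` has no neighbour in another class -/
theorem RR.not_adj {S : Fin 3 → Set V} (hT : TF G S) {i j : Fin 3} {x b : V} (hx : RR G S i x)
    (hb : b ∈ S j) (hij : i ≠ j) : ¬ G.Adj x b := by
  intro h
  obtain ⟨h1, c, hc, hxc⟩ := hx
  exact hij (hT.uniq x h1 i j c b hc hb hxc h)

theorem R0.not_adj {S : Fin 3 → Set V} {j : Fin 3} {x b : V} (hx : R0 G S x)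
    (hb : b ∈ S j) : ¬ G.Adj x b := hx.2 j b hb

/-- a neighbour of a vertex of `R0` is in `R0` or in some `R i` -/
theorem R0.nbr {S : Fin 3 → Set V} {z s : V} (hz : R0 G S z) (h : G.Adj z s) :
    (∃ i, RR G S i s) ∨ R0 G S s := by
  rcases trichotomy (G := G) (S := S) s with ⟨i, hi⟩ | h' | h'
  · exact absurd h (hz.not_adj hi)
  · exact Or.inl h'
  · exact Or.inr h'

/-- the components of `R0` are modules -/
theorem mod0 (hP : P5Free G) {S : Fin 3 → Set V} (hT : TF G S) {z z' s : V} {i : Fin 3}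
    (hz : R0 G S z) (hz' : R0 G S z') (hzz : G.Adj z z') (hs : RR G S i s) (hsz : G.Adj z s) :
    G.Adj z' s := by
  by_contra hcon
  obtain ⟨b, hb, hsb⟩ := hs.2
  obtain ⟨j, hj⟩ := other3 i
  obtain ⟨c, hc, hbc⟩ := hT.nbr i j hj.symm b hb
  exact hP.elim hzz.symm hsz hsb hbc hcon (hz'.not_adj hb) (hz'.not_adj hc) (hz.not_adj hb)
    (hz.not_adj hc) (hs.not_adj hT hc hj.symm)

/-- completeness to the own class -/
theorem compl0 (hP : P5Free G) {S : Fin 3 → Set V} (hT : TF G S) {z s : V} {i : Fin 3}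
    (hz : R0 G S z) (hs : RR G S i s) (hsz : G.Adj z s) : ∀ b ∈ S i, G.Adj s b := by
  intro b' hb'
  obtain ⟨b, hb, hsb⟩ := hs.2
  obtain ⟨j, hj⟩ := other3 i
  obtain ⟨p, hp⟩ := hT.conn i j hj.symm b (Or.inl hb) b' (Or.inl hb')
  have key : ∀ {v w : V} (p : G.Walk v w), (∀ t ∈ p.support, t ∈ S i ∪ S j) →
      ((v ∈ S i → G.Adj s v) ∧ (v ∈ S j → ∃ x ∈ S i, G.Adj s x ∧ G.Adj x v)) →
      ((w ∈ S i → G.Adj s w) ∧ (w ∈ S j → ∃ x ∈ S i, G.Adj s x ∧ G.Adj x w)) := by
    intro v w p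
    induction p with
    | nil => intro _ h; exact h
    | @cons v v1 w h p ih =>
      intro hp hv
      refine ih (fun t ht => hp t (by
        rw [SimpleGraph.Walk.support_cons]; exact List.mem_cons_of_mem _ ht)) ?_
      have hvS : v ∈ S i ∪ S j := hp v (by simp)
      have hv1S : v1 ∈ S i ∪ S j := hp v1 (by
        rw [SimpleGraph.Walk.support_cons]; exact List.mem_cons_of_mem _ p.start_mem_support)
      rcases hvS with hvi | hvj
      · refine ⟨fun h1 => absurd h (hT.ind i v hvi v1 h1), fun _ => ⟨v, hvi, hv.1 hvi, h⟩⟩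
      · refine ⟨fun h1 => ?_, fun h1 => absurd h (hT.ind j v hvj v1 h1)⟩
        obtain ⟨x, hx, hsx, hxv⟩ := hv.2 hvj
        by_contra hcon
        exact hP.elim hsz hsx hxv h (hz.not_adj hx) (hz.not_adj hvj) (hz.not_adj h1)
          (hs.not_adj hT hvj hj.symm) hcon (hT.ind i x hx v1 h1)
  exact (key p hp ⟨fun _ => hsb, fun h => absurd hsb (hs.not_adj hT h hj.symm)⟩).1 hb'

/-- the class of `s` is complete to the other classes -/
theorem bcompl0 (hP : P5Free G) {S : Fin 3 → Set V} (hT : TF G S) {z s : V} {i : Fin 3}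
    (hz : R0 G S z) (hs : RR G S i s) (hsz : G.Adj z s) {j : Fin 3} (hj : j ≠ i) :
    ∀ b ∈ S i, ∀ c ∈ S j, G.Adj b c := by
  intro b hb c' hc'
  have hsb := compl0 hP hT hz hs hsz b hb
  obtain ⟨l, hli, hlj⟩ := third3 i j hj.symm
  obtain ⟨c, hc, hbc⟩ := hT.nbr i j hj.symm b hb
  obtain ⟨p, hp⟩ := hT.conn j l hlj.symm c (Or.inl hc) c' (Or.inl hc')
  have key : ∀ {v w : V} (p : G.Walk v w), (∀ t ∈ p.support, t ∈ S j ∪ S l) →
      G.Adj b v → G.Adj b w := by
    intro v w p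
    induction p with
    | nil => intro _ h; exact h
    | @cons v v1 w h p ih =>
      intro hp hv
      refine ih (fun t ht => hp t (by
        rw [SimpleGraph.Walk.support_cons]; exact List.mem_cons_of_mem _ ht)) ?_
      have hvS : v ∈ S j ∪ S l := hp v (by simp)
      have hv1S : v1 ∈ S j ∪ S l := hp v1 (by
        rw [SimpleGraph.Walk.support_cons]; exact List.mem_cons_of_mem _ p.start_mem_support)
      have h1 : ¬ G.Adj z v ∧ ¬ G.Adj s v := by
        rcases hvS with h1 | h1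
        · exact ⟨hz.not_adj h1, hs.not_adj hT h1 hj.symm⟩
        · exact ⟨hz.not_adj h1, hs.not_adj hT h1 hli.symm⟩
      have h2 : ¬ G.Adj z v1 ∧ ¬ G.Adj s v1 := by
        rcases hv1S with h1 | h1
        · exact ⟨hz.not_adj h1, hs.not_adj hT h1 hj.symm⟩
        · exact ⟨hz.not_adj h1, hs.not_adj hT h1 hli.symm⟩
      by_contra hcon
      exact hP.elim hsz hsb hv h (hz.not_adj hb) h1.1 h2.1 h1.2 h2.2 hcon
  exact key p hp hbc

/-- neighbours of `z` in different classes are adjacent -/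
theorem cross0 (hP : P5Free G) {S : Fin 3 → Set V} (hT : TF G S) {z s t : V} {i j : Fin 3}
    (hz : R0 G S z) (hs : RR G S i s) (hsz : G.Adj z s) (ht : RR G S j t) (htz : G.Adj z t)
    (hij : i ≠ j) : G.Adj s t := by
  by_contra hcon
  obtain ⟨l, hli, hlj⟩ := third3 i j hij
  obtain ⟨b, hb, htb⟩ := ht.2
  obtain ⟨c, hc, hbc⟩ := hT.nbr j l hlj.symm b hb
  exact hP.elim hsz.symm htz htb hbc hcon (hs.not_adj hT hb hij) (hs.not_adj hT hc hli.symm)
    (hz.not_adj hb) (hz.not_adj hc) (ht.not_adj hT hc hlj.symm)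

/-- `s` is complete to the other `R k` -/
theorem far0 (hP : P5Free G) {S : Fin 3 → Set V} (hT : TF G S) {z s r : V} {i k : Fin 3}
    (hz : R0 G S z) (hs : RR G S i s) (hsz : G.Adj z s) (hr : RR G S k r) (hik : i ≠ k) :
    G.Adj s r := by
  by_contra hcon
  have hzr : ¬ G.Adj z r := fun h => hcon (cross0 hP hT hz hs hsz hr h hik)
  obtain ⟨c, hc, hrc⟩ := hr.2
  obtain ⟨b, hb⟩ := hT.ne i
  have hbc := bcompl0 hP hT hz hs hsz hik.symm b hb c hc
  have hsb := compl0 hP hT hz hs hsz b hb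
  exact hP.elim hsz hsb hbc hrc.symm (hz.not_adj hb) (hz.not_adj hc) hzr
    (hs.not_adj hT hc hik) hcon (fun h => hr.not_adj hT hb hik.symm h.symm)

/-- every vertex of `R0` has a neighbour in some `R k` -/
theorem hasR (hP : P5Free G) {S : Fin 3 → Set V} (hT : TF G S) (hc : G.Preconnected) {z : V}
    (hz : R0 G S z) : ∃ k s, RR G S k s ∧ G.Adj z s := by
  obtain ⟨b, hb⟩ := hT.ne 0
  obtain ⟨p⟩ := hc z b
  have key : ∀ {v w : V} (p : G.Walk v w), R0 G S v → ¬ R0 G S w →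
      ∃ k s, RR G S k s ∧ G.Adj v s := by
    intro v w p
    induction p with
    | nil => intro h1 h2; exact absurd h1 h2
    | @cons v v1 w h p ih =>
      intro h1 h2
      rcases h1.nbr h with ⟨k, hk⟩ | h3
      · exact ⟨k, v1, hk, h⟩
      · obtain ⟨k, s, hs, hadj⟩ := ih h3 h2
        exact ⟨k, s, hs, mod0 hP hT h3 h1 h.symm hs hadj⟩
  exact key p hz (fun h => h.1 0 hb)

/-- case (a): two neighbours of `z` of different classes give a dominating edge -/
theorem caseA (hP : P5Free G) {S : Fin 3 → Set V} (hT : TF G S) (hc : G.Preconnected)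
    {z s t b : V} {i j : Fin 3}
    (hz : R0 G S z) (hs : RR G S i s) (hsz : G.Adj z s) (ht : RR G S j t) (htz : G.Adj z t)
    (hij : i ≠ j) (hb : b ∈ S i) (x : V) : G.Adj x s ∨ G.Adj x b ∨ x = s ∨ x = b := by
  obtain ⟨l, hli, hlj⟩ := third3 i j hij
  have hst := cross0 hP hT hz hs hsz ht htz hij
  have hsb := compl0 hP hT hz hs hsz b hb
  rcases trichotomy (G := G) (S := S) x with ⟨k, hk⟩ | ⟨k, hk⟩ | h0
  · by_cases hki : k = i
    · subst hki
      exact Or.inl (compl0 hP hT hz hs hsz x hk).symm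
    · exact Or.inr (Or.inl (bcompl0 hP hT hz hs hsz hki b hb x hk).symm)
  · by_cases hki : k = i
    · subst hki
      by_contra hcon
      push Not at hcon
      obtain ⟨h1, h2, -, -⟩ := hcon
      obtain ⟨c, hc', hbc⟩ := hT.nbr k l hli.symm b hb
      have htx := far0 hP hT hz ht htz hk hij.symm
      exact hP.elim hbc.symm hsb.symm hst htx
        (fun h => hs.not_adj hT hc' hli.symm h.symm) (fun h => ht.not_adj hT hc' hlj.symm h.symm)
        (fun h => hk.not_adj hT hc' hli.symm h.symm) (fun h => ht.not_adj hT hb hij.symm h.symm)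
        (fun h => h2 h.symm) (fun h => h1 h.symm)
    · exact Or.inl (far0 hP hT hz hs hsz hk (Ne.symm hki)).symm
  · by_contra hcon
    push Not at hcon
    obtain ⟨h1, h2, -, -⟩ := hcon
    -- no neighbour of `x` in `R k`, `k ≠ i`
    have hno : ∀ k y, RR G S k y → G.Adj x y → k = i := by
      intro k y hy hxy
      by_contra hki
      obtain ⟨m, hmi, hmk⟩ := third3 i k (Ne.symm hki)
      have hsy := far0 hP hT hz hs hsz hy (Ne.symm hki)
      obtain ⟨c, hc', hbc⟩ := hT.nbr i m hmi.symm b hb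
      exact hP.elim hxy hsy.symm hsb hbc h1 (h0.not_adj hb) (h0.not_adj hc')
        (hy.not_adj hT hb hki) (hy.not_adj hT hc' hmk.symm) (hs.not_adj hT hc' hmi.symm)
    obtain ⟨k, y, hy, hxy⟩ := hasR hP hT hc h0
    have hki := hno k y hy hxy
    subst hki
    have hty := far0 hP hT hz ht htz hy hij.symm
    have hxt : ¬ G.Adj x t := fun h => hij (hno j t ht h).symm
    obtain ⟨c, hc', htc⟩ := ht.2
    obtain ⟨d, hd, hcd⟩ := hT.nbr j l hlj.symm c hc'
    exact hP.elim hxy hty.symm htc hcd hxt (h0.not_adj hc') (h0.not_adj hd)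
      (hy.not_adj hT hc' hij) (hy.not_adj hT hd hli.symm) (ht.not_adj hT hd hlj.symm)

end Pool.Agent.Helper67.Scheme
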