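import Pool.Agent.Helper67.Scheme.P5

set_option autoImplicit false

namespace Pool.Agent.Helper67.Scheme

open Pool.Agent.Helper58.Scheme Pool.Agent.Helper57.Force

universe u

variable {V : Type u} {G : SimpleGraph V}

/-- every vertex of `X` has a neighbour in `Y` -/
def NA (G : SimpleGraph V) (X Y : Set V) : Prop := ∀ x ∈ X, ∃ y ∈ Y, G.Adj x y

/-- three nonempty classes with neighbours in each other -/
def NbrAll (G : SimpleGraph V) (A B C : Set V) : Prop :=
  (A.Nonempty ∧ B.Nonempty ∧ C.Nonempty) ∧ NA G A B ∧ NA G B A ∧ NA G A C ∧ NA G C A ∧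
    NA G B C ∧ NA G C B

theorem NA.mono {X Y Y' : Set V} (h : NA G X Y) (hY : Y ⊆ Y') : NA G X Y' := by
  intro x hx
  obtain ⟨y, hy, hxy⟩ := h x hx
  exact ⟨y, hY hy, hxy⟩

theorem NA.insert {X Y : Set V} (h : NA G X Y) {z y : V} (hy : y ∈ Y) (hzy : G.Adj z y) :
    NA G (insert z X) Y := by
  intro x hx
  rcases hx with rfl | hx
  · exact ⟨y, hy, hzy⟩
  · exact h x hx

theorem forced_inv {A B C : Set V} (h : Forced G A B C) :
    NbrAll G A B C ∨ ∃ x y, G.Adj x y ∧ ((A = {x} ∧ B = {y} ∧ C = ∅) ∨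
      (A = {x} ∧ C = {y} ∧ B = ∅) ∨ (B = {x} ∧ C = {y} ∧ A = ∅)) := by
  induction h with
  | edge x y hxy => exact Or.inr ⟨x, y, hxy, Or.inl ⟨rfl, rfl, rfl⟩⟩
  | swap A B C _ ih =>
    rcases ih with ⟨⟨a, b, c⟩, h1, h2, h3, h4, h5, h6⟩ | ⟨x, y, hxy, h | h | h⟩
    · exact Or.inl ⟨⟨b, a, c⟩, h2, h1, h5, h6, h3, h4⟩
    · exact Or.inr ⟨y, x, hxy.symm, Or.inl ⟨h.2.1, h.1, h.2.2⟩⟩
    · exact Or.inr ⟨x, y, hxy, Or.inr (Or.inr ⟨h.1, h.2.1, h.2.2⟩)⟩
    · exact Or.inr ⟨x, y, hxy, Or.inr (Or.inl ⟨h.1, h.2.1, h.2.2⟩)⟩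
  | rotate A B C _ ih =>
    rcases ih with ⟨⟨a, b, c⟩, h1, h2, h3, h4, h5, h6⟩ | ⟨x, y, hxy, h | h | h⟩
    · exact Or.inl ⟨⟨b, c, a⟩, h5, h6, h2, h1, h4, h3⟩
    · exact Or.inr ⟨y, x, hxy.symm, Or.inr (Or.inl ⟨h.2.1, h.1, h.2.2⟩)⟩
    · exact Or.inr ⟨y, x, hxy.symm, Or.inr (Or.inr ⟨h.2.1, h.1, h.2.2⟩)⟩
    · exact Or.inr ⟨x, y, hxy, Or.inl ⟨h.1, h.2.1, h.2.2⟩⟩
  | add A B C z a b _ ha hb hza hzb ih =>
    rcases ih with ⟨⟨a', b', c'⟩, h1, h2, h3, h4, h5, h6⟩ | ⟨x, y, hxy, h | h | h⟩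
    · exact Or.inl ⟨⟨a', b', Set.insert_nonempty _ _⟩, h1, h2, h3.mono (Set.subset_insert _ _),
        h4.insert ha hza, h5.mono (Set.subset_insert _ _), h6.insert hb hzb⟩
    · obtain ⟨rfl, rfl, rfl⟩ := h
      rw [Set.mem_singleton_iff] at ha hb
      subst ha hb
      left
      refine ⟨⟨Set.singleton_nonempty _, Set.singleton_nonempty _, Set.insert_nonempty _ _⟩,
        ?_, ?_, ?_, ?_, ?_, ?_⟩
      · rintro t ht; rw [Set.mem_singleton_iff] at ht; subst ht; exact ⟨b, rfl, hxy⟩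
      · rintro t ht; rw [Set.mem_singleton_iff] at ht; subst ht; exact ⟨a, rfl, hxy.symm⟩
      · rintro t ht; rw [Set.mem_singleton_iff] at ht; subst ht
        exact ⟨z, Set.mem_insert _ _, hza.symm⟩
      · rintro t (rfl | ht)
        · exact ⟨a, rfl, hza⟩
        · exact absurd ht (Set.notMem_empty _)
      · rintro t ht; rw [Set.mem_singleton_iff] at ht; subst ht
        exact ⟨z, Set.mem_insert _ _, hzb.symm⟩
      · rintro t (rfl | ht)
        · exact ⟨b, rfl, hzb⟩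
        · exact absurd ht (Set.notMem_empty _)
    · rw [h.2.2] at hb; exact absurd hb (Set.notMem_empty _)
    · rw [h.2.2] at ha; exact absurd ha (Set.notMem_empty _)

/-- closed neighbourhood of a set -/
def nb (G : SimpleGraph V) (U : Set V) : Set V := {x | x ∈ U ∨ ∃ y ∈ U, G.Adj x y}

theorem nb_mono {U U' : Set V} (h : U ⊆ U') : nb G U ⊆ nb G U' := by
  rintro x (hx | ⟨y, hy, hxy⟩)
  · exact Or.inl (h hx)
  · exact Or.inr ⟨y, h hy, hxy⟩

/-- the choice of `b` in case (b) -/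
theorem choiceB [Finite V] (hP : P5Free G) {S : Fin 3 → Set V} (hT : TF G S) {z s : V}
    {i : Fin 3} (hz : R0 G S z) (hs : RR G S i s) (hsz : G.Adj z s) :
    ∃ b ∈ S i, ∀ r, RR G S i r → G.Adj r s ∨ G.Adj r b := by
  by_contra hcon
  push Not at hcon
  obtain ⟨b0, hb0⟩ := hT.ne i
  obtain ⟨r0, hr0, hr0s, -⟩ := hcon b0 hb0
  obtain ⟨r, ⟨hr, hrs⟩, hmin⟩ := WellFounded.has_min
    (InvImage.wf (fun r : V => ({b | b ∈ S i ∧ G.Adj r b} : Set V).ncard) Nat.lt_wfRel.wf)
    {r | RR G S i r ∧ ¬ G.Adj r s} ⟨r0, hr0, hr0s⟩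
  obtain ⟨b, hb, hrb⟩ := hr.2
  obtain ⟨r', hr', hr's, hr'b⟩ := hcon b hb
  have hle : ¬ ({b | b ∈ S i ∧ G.Adj r' b} : Set V).ncard <
      ({b | b ∈ S i ∧ G.Adj r b} : Set V).ncard := hmin r' ⟨hr', hr's⟩
  obtain ⟨b', hb', hr'b', hrb'⟩ : ∃ b' ∈ S i, G.Adj r' b' ∧ ¬ G.Adj r b' := by
    by_contra hno
    push Not at hno
    apply hle
    apply Set.ncard_lt_ncard _ (Set.toFinite _)
    refine ⟨fun t ht => ⟨ht.1, hno t ht.1 ht.2⟩, fun hsub => ?_⟩
    exact hr'b (hsub ⟨hb, hrb⟩).2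
  have hsb := compl0 hP hT hz hs hsz b hb
  have hsb' := compl0 hP hT hz hs hsz b' hb'
  by_cases hrr : G.Adj r r'
  · have hzr : ¬ G.Adj z r := fun h => hrb' (compl0 hP hT hz hr h b' hb')
    have hzr' : ¬ G.Adj z r' := fun h => hr'b (compl0 hP hT hz hr' h b hb)
    exact hP.elim hsz hsb hrb.symm hrr (hz.not_adj hb) hzr hzr' (fun h => hrs h.symm)
      (fun h => hr's h.symm) (fun h => hr'b h.symm)
  · exact hP.elim hrb hsb.symm hsb' hr'b'.symm hrs hrb' hrr (hT.ind i b hb b' hb')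
      (fun h => hr'b h.symm) (fun h => hr's h.symm)

/-- case (b) -/
theorem caseB [Finite V] (hP : P5Free G) {S : Fin 3 → Set V} (hT : TF G S)
    (hc : G.Preconnected)
    (hsingle : ∀ z s t i j, R0 G S z → RR G S i s → G.Adj z s → RR G S j t → G.Adj z t → i = j)
    {z0 : V} (hz0 : R0 G S z0) :
    ∃ z s b, R0 G S z ∧ G.Adj s b ∧ G.Adj z s ∧
      (∀ x, ¬ R0 G S x → G.Adj x s ∨ G.Adj x b ∨ x = s ∨ x = b) ∧
      ((∃ t, G.Adj t s ∧ G.Adj t b) ∨ ∀ x, G.Adj x s ∨ G.Adj x b ∨ x = s ∨ x = b) := by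
  obtain ⟨z, hz, hmin⟩ := WellFounded.has_min
    (InvImage.wf (fun z : V => ({s | (∃ k, RR G S k s) ∧ G.Adj z s} : Set V).ncard)
      Nat.lt_wfRel.wf) {z | R0 G S z} ⟨z0, hz0⟩
  obtain ⟨i, s, hs, hsz⟩ := hasR hP hT hc hz
  obtain ⟨b, hb, hbr⟩ := choiceB hP hT hz hs hsz
  have hsb := compl0 hP hT hz hs hsz b hb
  have hcov : ∀ x, ¬ R0 G S x → G.Adj x s ∨ G.Adj x b ∨ x = s ∨ x = b := by
    intro x hx
    rcases trichotomy (G := G) (S := S) x with ⟨k, hk⟩ | ⟨k, hk⟩ | h0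
    · by_cases hki : k = i
      · subst hki
        exact Or.inl (compl0 hP hT hz hs hsz x hk).symm
      · exact Or.inr (Or.inl (bcompl0 hP hT hz hs hsz hki b hb x hk).symm)
    · by_cases hki : k = i
      · subst hki
        rcases hbr x hk with h | h
        · exact Or.inl h
        · exact Or.inr (Or.inl h)
      · exact Or.inl (far0 hP hT hz hs hsz hk (Ne.symm hki)).symm
    · exact absurd h0 hx
  refine ⟨z, s, b, hz, hsb, hsz, hcov, ?_⟩
  by_cases ht : ∃ t, G.Adj t s ∧ G.Adj t b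
  · exact Or.inl ht
  · right
    intro x
    by_cases hx0 : R0 G S x
    swap
    · exact hcov x hx0
    by_contra hcon
    push Not at hcon
    obtain ⟨h1, h2, -, -⟩ := hcon
    -- the neighbours of `x` have class `i`
    obtain ⟨k, y, hy, hxy⟩ := hasR hP hT hc hx0
    have hki : k = i := by
      by_contra hki
      obtain ⟨m, hmi, hmk⟩ := third3 i k (Ne.symm hki)
      have hsy := far0 hP hT hz hs hsz hy (Ne.symm hki)
      obtain ⟨c, hc', hbc⟩ := hT.nbr i m hmi.symm b hb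
      exact hP.elim hxy hsy.symm hsb hbc h1 (hx0.not_adj hb) (hx0.not_adj hc')
        (hy.not_adj hT hb hki) (hy.not_adj hT hc' hmk.symm) (hs.not_adj hT hc' hmi.symm)
    subst hki
    have hsub : ∀ y, (∃ k, RR G S k y) → G.Adj x y → G.Adj z y := by
      rintro w ⟨m, hm⟩ hxw
      have hmk : m = k := hsingle x w y m k hx0 hm hxw hy hxy
      subst hmk
      by_contra hzw
      have hsw : G.Adj s w := by
        by_contra hsw
        have hwb := compl0 hP hT hx0 hm hxw b hb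
        exact hP.elim hsz hsb hwb.symm hxw.symm (hz.not_adj hb) hzw
          (fun h => h1 (mod0 hP hT hz hx0 h hs hsz)) hsw (fun h => h1 h.symm)
          (fun h => hx0.not_adj hb h.symm)
      exact ht ⟨w, hsw.symm, compl0 hP hT hx0 hm hxw b hb⟩
    apply hmin x hx0
    apply Set.ncard_lt_ncard _ (Set.toFinite _)
    refine ⟨fun w hw => ⟨hw.1, hsub w hw.1 hw.2⟩, fun hsub' => ?_⟩
    exact h1 (hsub' (show s ∈ {s | (∃ k, RR G S k s) ∧ G.Adj z s} from ⟨⟨k, hs⟩, hsz⟩)).2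

/-- the three classes of a `Forced` triple -/
theorem tf_of_forced {A B C : Set V} (hF : Forced G A B C) (hN : NbrAll G A B C)
    {Q : V → Fin 4} (hQ : Proper G Q) (hfl : Flat Q A B C)
    (hmax : ∀ A' B' C' : Set V, Forced G A' B' C' → NbrAll G A' B' C' → A ∪ B ∪ C ⊆ A' ∪ B' ∪ C' →
      A' ∪ B' ∪ C' ⊆ A ∪ B ∪ C) : TF G ![A, B, C] := by
  obtain ⟨cAB, cBC, cAC⟩ := hF.conn
  have hN' := hN
  obtain ⟨⟨nA, nB, nC⟩, h1, h2, h3, h4, h5, h6⟩ := hN
  obtain ⟨a, b, g, hab, hag, hbg, hA, hB, hC⟩ := hfl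
  -- a vertex with neighbours in two classes
  have hcl : ∀ A B C : Set V, Forced G A B C → NbrAll G A B C →
      (∀ A' B' C' : Set V, Forced G A' B' C' → NbrAll G A' B' C' → A ∪ B ∪ C ⊆ A' ∪ B' ∪ C' →
        A' ∪ B' ∪ C' ⊆ A ∪ B ∪ C) →
      ∀ x a b, a ∈ A → b ∈ B → G.Adj x a → G.Adj x b → x ∈ A ∪ B ∪ C := by
    intro A B C hF hN hmax x a b ha hb hxa hxb
    have hF' := Forced.add A B C x a b hF ha hb hxa hxb
    have hN' : NbrAll G A B (insert x C) := by
      obtain ⟨⟨nA, nB, nC⟩, h1, h2, h3, h4, h5, h6⟩ := hN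
      exact ⟨⟨nA, nB, Set.insert_nonempty _ _⟩, h1, h2, h3.mono (Set.subset_insert _ _),
        h4.insert ha hxa, h5.mono (Set.subset_insert _ _), h6.insert hb hxb⟩
    exact hmax A B (insert x C) hF' hN'
      (Set.union_subset_union_right _ (Set.subset_insert _ _)) (Or.inr (Set.mem_insert _ _))
  have e1 : A ∪ B ∪ C = B ∪ C ∪ A := by
    ext x; simp only [Set.mem_union]; tauto
  have e2 : A ∪ B ∪ C = C ∪ A ∪ B := by
    ext x; simp only [Set.mem_union]; tauto
  have hAB := hcl A B C hF hN' hmax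
  have hBC := hcl B C A (Forced.rotate _ _ _ hF) ⟨⟨nB, nC, nA⟩, h5, h6, h2, h1, h4, h3⟩
    (by rw [← e1]; exact hmax)
  have hCA := hcl C A B (Forced.rotate _ _ _ (Forced.rotate _ _ _ hF))
    ⟨⟨nC, nA, nB⟩, h4, h3, h6, h5, h1, h2⟩ (by rw [← e2]; exact hmax)
  rw [← e1] at hBC
  rw [← e2] at hCA
  constructor
  · intro i j hij
    fin_cases i <;> fin_cases j <;>
      first
        | exact absurd rfl hij
        | exact cAB
        | exact cAC
        | exact cBC
        | exact conn_union_comm cAB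
        | exact conn_union_comm cAC
        | exact conn_union_comm cBC
  · intro i j hij
    fin_cases i <;> fin_cases j <;>
      first
        | exact absurd rfl hij
        | exact h1
        | exact h2
        | exact h3
        | exact h4
        | exact h5
        | exact h6
  · intro i x hx y hy hxy
    apply hQ x y hxy
    fin_cases i
    · rw [hA x hx, hA y hy]
    · rw [hB x hx, hB y hy]
    · rw [hC x hx, hC y hy]
  · intro x hx k l b c hb hc hxb hxc
    have hx' : x ∉ A ∪ B ∪ C := by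
      rintro ((h | h) | h)
      · exact hx 0 h
      · exact hx 1 h
      · exact hx 2 h
    fin_cases k <;> fin_cases l <;>
      first
        | rfl
        | exact absurd (hAB x b c hb hc hxb hxc) hx'
        | exact absurd (hAB x c b hc hb hxc hxb) hx'
        | exact absurd (hBC x b c hb hc hxb hxc) hx'
        | exact absurd (hBC x c b hc hb hxc hxb) hx'
        | exact absurd (hCA x b c hb hc hxb hxc) hx'
        | exact absurd (hCA x c b hc hb hxc hxb) hx'
  · intro i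
    fin_cases i
    · exact nA
    · exact nB
    · exact nC

theorem forced_triangle {x y z : V} (hxy : G.Adj x y) (hzx : G.Adj z x) (hzy : G.Adj z y) :
    Forced G {x} {y} {z} ∧ NbrAll G {x} {y} {z} := by
  have h1 : Forced G {x} {y} (insert z ∅) :=
    Forced.add _ _ _ z x y (Forced.edge x y hxy) rfl rfl hzx hzy
  have h2 : (insert z ∅ : Set V) = {z} := by ext t; simp
  rw [h2] at h1
  refine ⟨h1, ?_⟩
  rcases forced_inv h1 with h | ⟨a, b, -, h | h | h⟩
  · exact h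
  · exact absurd h.2.2 (Set.singleton_ne_empty z)
  · exact absurd h.2.2 (Set.singleton_ne_empty y)
  · exact absurd h.2.2 (Set.singleton_ne_empty x)

/-- **Structure theorem.** -/
theorem p5_dominating [Finite V] (hP : P5Free G) (hc : G.Preconnected)
    (hflat : ∀ A B C : Set V, Forced G A B C → ∃ Q, Proper G Q ∧ Flat Q A B C)
    (htri : ∃ x y z, G.Adj x y ∧ G.Adj z x ∧ G.Adj z y) :
    ∃ A B C : Set V, Forced G A B C ∧ Dominates G (A ∪ B ∪ C) := by
  -- a dominating edge suffices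
  have hedge : ∀ s b, G.Adj s b → (∀ x, G.Adj x s ∨ G.Adj x b ∨ x = s ∨ x = b) →
      ∃ A B C : Set V, Forced G A B C ∧ Dominates G (A ∪ B ∪ C) := by
    intro s b hsb h
    refine ⟨{s}, {b}, ∅, Forced.edge s b hsb, ?_⟩
    intro x hx
    rcases h x with h | h | h | h
    · exact ⟨s, by simp, h⟩
    · exact ⟨b, by simp, h⟩
    · exact absurd (by rw [h]; simp) hx
    · exact absurd (by rw [h]; simp) hx
  -- the extremal triple
  let n := Nat.card V
  let T : Set (Set V) := {U | ∃ A B C : Set V, Forced G A B C ∧ NbrAll G A B C ∧ A ∪ B ∪ C = U}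
  obtain ⟨x, y, z, hxy, hzx, hzy⟩ := htri
  have hTne : T.Nonempty := ⟨_, {x}, {y}, {z}, (forced_triangle hxy hzx hzy).1,
    (forced_triangle hxy hzx hzy).2, rfl⟩
  obtain ⟨U, ⟨A, B, C, hF, hN, hU⟩, hUmax⟩ := WellFounded.has_min
    (InvImage.wf (fun U : Set V => (n + 1) * (n + 1) - ((nb G U).ncard * (n + 1) + U.ncard))
      Nat.lt_wfRel.wf) T hTne
  have hcard : ∀ U : Set V, U.ncard ≤ n := fun U => by
    have := Set.ncard_le_ncard (Set.subset_univ U) (Set.toFinite _)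
    rwa [Set.ncard_univ] at this
  have hmeas : ∀ U' ∈ T, (nb G U').ncard * (n + 1) + U'.ncard ≤
      (nb G U).ncard * (n + 1) + U.ncard := by
    intro U' hU'
    have h1 : ¬ ((n + 1) * (n + 1) - ((nb G U').ncard * (n + 1) + U'.ncard) <
      (n + 1) * (n + 1) - ((nb G U).ncard * (n + 1) + U.ncard)) := hUmax U' hU'
    have h2 := hcard (nb G U')
    have h3 := hcard U'
    have h4 : (nb G U').ncard * (n + 1) + U'.ncard < (n + 1) * (n + 1) := by
      have : (nb G U').ncard * (n + 1) ≤ n * (n + 1) := Nat.mul_le_mul_right _ h2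
      nlinarith
    omega
  have hnbmax : ∀ U' ∈ T, (nb G U').ncard ≤ (nb G U).ncard := by
    intro U' hU'
    have h1 := hmeas U' hU'
    have h2 := hcard U
    by_contra hlt
    push Not at hlt
    have h3 : ((nb G U).ncard + 1) * (n + 1) ≤ (nb G U').ncard * (n + 1) :=
      Nat.mul_le_mul_right _ hlt
    nlinarith
  have hUmax' : ∀ A' B' C' : Set V, Forced G A' B' C' → NbrAll G A' B' C' →
      A ∪ B ∪ C ⊆ A' ∪ B' ∪ C' → A' ∪ B' ∪ C' ⊆ A ∪ B ∪ C := by
    intro A' B' C' hF' hN' hsub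
    rw [hU] at hsub ⊢
    have h1 := hmeas _ ⟨A', B', C', hF', hN', rfl⟩
    have h2 : (nb G U).ncard ≤ (nb G (A' ∪ B' ∪ C')).ncard :=
      Set.ncard_le_ncard (nb_mono hsub) (Set.toFinite _)
    have h3 : (nb G U).ncard * (n + 1) ≤ (nb G (A' ∪ B' ∪ C')).ncard * (n + 1) :=
      Nat.mul_le_mul_right _ h2
    have h4 : (A' ∪ B' ∪ C').ncard ≤ U.ncard := by omega
    rw [Set.eq_of_subset_of_ncard_le hsub h4 (Set.toFinite _)]
  obtain ⟨Q, hQ, hfl⟩ := hflat A B C hF
  have hT := tf_of_forced hF hN hQ hfl hUmax'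
  by_cases hdom : Dominates G (A ∪ B ∪ C)
  · exact ⟨A, B, C, hF, hdom⟩
  unfold Dominates at hdom
  push Not at hdom
  obtain ⟨z0, hz0U, hz0⟩ := hdom
  have hmemU : ∀ v k, v ∈ (![A, B, C] : Fin 3 → Set V) k → v ∈ A ∪ B ∪ C := by
    intro v k hv
    fin_cases k
    · exact Or.inl (Or.inl hv)
    · exact Or.inl (Or.inr hv)
    · exact Or.inr hv
  have hR0 : R0 G ![A, B, C] z0 := by
    refine ⟨fun k hk => hz0U (hmemU _ k hk), fun k b hb h => hz0 b (hmemU _ k hb) h⟩
  by_cases hA : ∃ z s t i j, R0 G ![A, B, C] z ∧ RR G ![A, B, C] i s ∧ G.Adj z s ∧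
      RR G ![A, B, C] j t ∧ G.Adj z t ∧ i ≠ j
  · obtain ⟨z, s, t, i, j, hz, hs, hsz, ht, htz, hij⟩ := hA
    obtain ⟨b, hb⟩ := hT.ne i
    exact hedge s b (compl0 hP hT hz hs hsz b hb)
      (caseA hP hT hc hz hs hsz ht htz hij hb)
  · have hsingle : ∀ z s t i j, R0 G ![A, B, C] z → RR G ![A, B, C] i s → G.Adj z s →
        RR G ![A, B, C] j t → G.Adj z t → i = j := by
      intro z s t i j h1 h2 h3 h4 h5
      by_contra hij
      exact hA ⟨z, s, t, i, j, h1, h2, h3, h4, h5, hij⟩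
    obtain ⟨z, s, b, hz, hsb, hsz, hcov, h | h⟩ := caseB hP hT hc hsingle hR0
    · exfalso
      obtain ⟨t, hts, htb⟩ := h
      obtain ⟨hF', hN'⟩ := forced_triangle hsb hts htb
      have h1 := hnbmax _ ⟨{s}, {b}, {t}, hF', hN', rfl⟩
      have h2 : nb G U ⊂ nb G ({s} ∪ {b} ∪ {t}) := by
        refine ⟨?_, ?_⟩
        · intro v hv
          have hv0 : ¬ R0 G ![A, B, C] v := by
            intro h0
            rcases hv with hv | ⟨w, hw, hvw⟩
            · rw [← hU] at hv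
              rcases hv with (hv | hv) | hv
              · exact h0.1 0 hv
              · exact h0.1 1 hv
              · exact h0.1 2 hv
            · rw [← hU] at hw
              rcases hw with (hw | hw) | hw
              · exact h0.2 0 w hw hvw
              · exact h0.2 1 w hw hvw
              · exact h0.2 2 w hw hvw
          rcases hcov v hv0 with h | h | h | h
          · exact Or.inr ⟨s, by simp, h⟩
          · exact Or.inr ⟨b, by simp, h⟩
          · exact Or.inl (by rw [h]; simp)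
          · exact Or.inl (by rw [h]; simp)
        · intro hsub
          have hzz : z ∈ nb G U := hsub (Or.inr ⟨s, by simp, hsz⟩)
          rcases hzz with hv | ⟨w, hw, hvw⟩
          · rw [← hU] at hv
            rcases hv with (hv | hv) | hv
            · exact hz.1 0 hv
            · exact hz.1 1 hv
            · exact hz.1 2 hv
          · rw [← hU] at hw
            rcases hw with (hw | hw) | hw
            · exact hz.2 0 w hw hvw
            · exact hz.2 1 w hw hvw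
            · exact hz.2 2 w hw hvw
      have h3 := Set.ncard_lt_ncard h2 (Set.toFinite _)
      omega
    · exact hedge s b hsb h

end Pool.Agent.Helper67.Scheme
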