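import Pool.Agent.Helper67.Scheme.P5b

set_option autoImplicit false

namespace Pool.Agent.Helper67.Scheme

open Pool.Agent.Helper58.Scheme Pool.Agent.Helper57.Force

universe u

variable {V : Type u} {G : SimpleGraph V}

/-- an induced 5-cycle -/
structure Cyc5 (G : SimpleGraph V) (c : Fin 5 → V) : Prop where
  adj : ∀ i, G.Adj (c i) (c (i + 1))
  non : ∀ i, ¬ G.Adj (c i) (c (i + 2))

/-- `v` is adjacent exactly to the two neighbours of `c i` -/
structure Pat (G : SimpleGraph V) (c : Fin 5 → V) (v : V) (i : Fin 5) : Prop where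
  a1 : G.Adj v (c (i + 1))
  a4 : G.Adj v (c (i + 4))
  n0 : ¬ G.Adj v (c i)
  n2 : ¬ G.Adj v (c (i + 2))
  n3 : ¬ G.Adj v (c (i + 3))

theorem pat_step (hP : P5Free G) (hT : ∀ x y z, G.Adj x y → G.Adj z x → ¬ G.Adj z y)
    {c : Fin 5 → V} (hC : Cyc5 G c) {u v : V} {i : Fin 5} (hu : Pat G c u i) (huv : G.Adj v u) :
    Pat G c v (i + 1) ∨ Pat G c v (i + 4) := by
  have e11 : ∀ i : Fin 5, i + 1 + 1 = i + 2 := by decide
  have e21 : ∀ i : Fin 5, i + 2 + 1 = i + 3 := by decide
  have e31 : ∀ i : Fin 5, i + 3 + 1 = i + 4 := by decide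
  have e41 : ∀ i : Fin 5, i + 4 + 1 = i := by decide
  have e12 : ∀ i : Fin 5, i + 1 + 2 = i + 3 := by decide
  have e22 : ∀ i : Fin 5, i + 2 + 2 = i + 4 := by decide
  have e32 : ∀ i : Fin 5, i + 3 + 2 = i := by decide
  have e42 : ∀ i : Fin 5, i + 4 + 2 = i + 1 := by decide
  have e14 : ∀ i : Fin 5, i + 1 + 4 = i := by decide
  have e44 : ∀ i : Fin 5, i + 4 + 4 = i + 3 := by decide
  have e43 : ∀ i : Fin 5, i + 4 + 3 = i + 2 := by decide
  have e13 : ∀ i : Fin 5, i + 1 + 3 = i + 4 := by decide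
  -- the edges and non-edges of the cycle
  have A0 : G.Adj (c i) (c (i + 1)) := hC.adj i
  have A1 : G.Adj (c (i + 1)) (c (i + 2)) := by have := hC.adj (i + 1); rwa [e11] at this
  have A2 : G.Adj (c (i + 2)) (c (i + 3)) := by have := hC.adj (i + 2); rwa [e21] at this
  have A3 : G.Adj (c (i + 3)) (c (i + 4)) := by have := hC.adj (i + 3); rwa [e31] at this
  have A4 : G.Adj (c (i + 4)) (c i) := by have := hC.adj (i + 4); rwa [e41] at this
  have N0 : ¬ G.Adj (c i) (c (i + 2)) := hC.non i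
  have N1 : ¬ G.Adj (c (i + 1)) (c (i + 3)) := by have := hC.non (i + 1); rwa [e12] at this
  have N2 : ¬ G.Adj (c (i + 2)) (c (i + 4)) := by have := hC.non (i + 2); rwa [e22] at this
  have N3 : ¬ G.Adj (c (i + 3)) (c i) := by have := hC.non (i + 3); rwa [e32] at this
  have N4 : ¬ G.Adj (c (i + 4)) (c (i + 1)) := by have := hC.non (i + 4); rwa [e42] at this
  have v1 : ¬ G.Adj v (c (i + 1)) := hT _ _ _ hu.a1 huv
  have v4 : ¬ G.Adj v (c (i + 4)) := hT _ _ _ hu.a4 huv
  by_cases h2 : G.Adj v (c (i + 2))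
  · have h3 : ¬ G.Adj v (c (i + 3)) := hT _ _ _ A2 h2
    have h0 : G.Adj v (c i) := by
      by_contra h0
      exact hP.elim h2 A2 A3 A4 h3 v4 h0 N2 (fun h => N0 h.symm) N3
    left
    refine ⟨by rw [e11]; exact h2, by rw [e14]; exact h0, v1, by rw [e12]; exact h3,
      by rw [e13]; exact v4⟩
  · by_cases h3 : G.Adj v (c (i + 3))
    · have h0 : G.Adj v (c i) := by
        by_contra h0
        exact hP.elim h3 A2.symm A1.symm A0.symm h2 v1 h0 (fun h => N1 h.symm) N3
          (fun h => N0 h.symm)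
      right
      refine ⟨by rw [e41]; exact h0, by rw [e44]; exact h3, v4, by rw [e42]; exact v1,
        by rw [e43]; exact h2⟩
    · exfalso
      exact hP.elim huv hu.a1 A1 A2 v1 h2 h3 hu.n2 hu.n3 N1

theorem pat_unique {c : Fin 5 → V} {v : V} {i j : Fin 5} (hi : Pat G c v i)
    (hj : Pat G c v j) : i = j := by
  have key : ∀ i j : Fin 5, i ≠ j → i + 1 = j ∨ i + 1 = j + 2 ∨ i + 1 = j + 3 ∨ i + 4 = j ∨
      i + 4 = j + 2 ∨ i + 4 = j + 3 := by decide
  by_contra hne
  rcases key i j hne with h | h | h | h | h | h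
  · exact hj.n0 (h ▸ hi.a1)
  · exact hj.n2 (h ▸ hi.a1)
  · exact hj.n3 (h ▸ hi.a1)
  · exact hj.n0 (h ▸ hi.a4)
  · exact hj.n2 (h ▸ hi.a4)
  · exact hj.n3 (h ▸ hi.a4)

theorem colorable3_of_cyc5 (hP : P5Free G) (hT : ∀ x y z, G.Adj x y → G.Adj z x → ¬ G.Adj z y)
    (hc : G.Preconnected) {c : Fin 5 → V} (hC : Cyc5 G c) : G.Colorable 3 := by
  classical
  have e41 : ∀ i : Fin 5, i + 4 + 1 = i := by decide
  have e32 : ∀ i : Fin 5, i + 3 + 2 = i := by decide
  have hex : ∀ v, ∃ i, Pat G c v i := by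
    intro v
    obtain ⟨p⟩ := hc (c 0) v
    have key : ∀ {x y : V} (p : G.Walk x y), (∃ i, Pat G c x i) → ∃ i, Pat G c y i := by
      intro x y p
      induction p with
      | nil => exact fun h => h
      | @cons x x1 y h p ih =>
        rintro ⟨i, hi⟩
        rcases pat_step hP hT hC hi h.symm with h' | h'
        · exact ih ⟨_, h'⟩
        · exact ih ⟨_, h'⟩
    refine key p ⟨0, ?_⟩
    have h1 := hC.adj 0
    have h4 := hC.adj 4
    have n0 := hC.non 0
    have n3 := hC.non 3
    exact ⟨h1, h4.symm, G.loopless.irrefl _, n0, fun h => n3 h.symm⟩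
  choose f hf using hex
  refine ⟨SimpleGraph.Coloring.mk (fun v => (![0, 1, 0, 1, 2] : Fin 5 → Fin 3) (f v)) ?_⟩
  intro u v huv
  have h1 : f v = f u + 1 ∨ f v = f u + 4 := by
    rcases pat_step hP hT hC (hf u) huv.symm with h | h
    · exact Or.inl (pat_unique (hf v) h)
    · exact Or.inr (pat_unique (hf v) h)
  have key : ∀ i j : Fin 5, (j = i + 1 ∨ j = i + 4) →
      (![0, 1, 0, 1, 2] : Fin 5 → Fin 3) i ≠ (![0, 1, 0, 1, 2] : Fin 5 → Fin 3) j := by decide
  exact key _ _ h1

/-- connected triangle-free graphs without induced path on five vertices are 3-colourable -/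
theorem colorable3_of_trianglefree [Finite V] (hP : P5Free G)
    (hT : ∀ x y z, G.Adj x y → G.Adj z x → ¬ G.Adj z y) (hc : G.Preconnected) :
    G.Colorable 3 := by
  classical
  by_cases hE : ∃ x y, G.Adj x y
  swap
  · push Not at hE
    exact ⟨SimpleGraph.Coloring.mk (fun _ => 0) (fun {a b} h => absurd h (hE a b))⟩
  obtain ⟨x0, y0, h0⟩ := hE
  obtain ⟨⟨x, y⟩, hxy, hmax⟩ := WellFounded.has_min
    (InvImage.wf (fun p : V × V => Nat.card V - ({t | G.Adj p.1 t ∨ G.Adj p.2 t} : Set V).ncard)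
      Nat.lt_wfRel.wf) {p : V × V | G.Adj p.1 p.2} ⟨(x0, y0), h0⟩
  have hxy : G.Adj x y := hxy
  have hcard : ∀ U : Set V, U.ncard ≤ Nat.card V := fun U => by
    have := Set.ncard_le_ncard (Set.subset_univ U) (Set.toFinite _)
    rwa [Set.ncard_univ] at this
  have hmax' : ∀ p : V × V, G.Adj p.1 p.2 →
      ({t | G.Adj p.1 t ∨ G.Adj p.2 t} : Set V).ncard ≤
        ({t | G.Adj x t ∨ G.Adj y t} : Set V).ncard := by
    intro p hp
    have h1 : ¬ (Nat.card V - ({t | G.Adj p.1 t ∨ G.Adj p.2 t} : Set V).ncard <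
      Nat.card V - ({t | G.Adj x t ∨ G.Adj y t} : Set V).ncard) := hmax p hp
    have h2 := hcard {t | G.Adj p.1 t ∨ G.Adj p.2 t}
    have h3 := hcard {t | G.Adj x t ∨ G.Adj y t}
    omega
  by_cases hdom : ∀ t, G.Adj x t ∨ G.Adj y t
  · -- bipartite
    refine ⟨SimpleGraph.Coloring.mk (fun t => if G.Adj x t then 0 else 1) ?_⟩
    intro a b hab
    by_cases ha : G.Adj x a <;> by_cases hb : G.Adj x b
    · exact absurd hb (hT a b x hab ha)
    · simp [ha, hb]
    · simp [ha, hb]
    · exact absurd ((hdom b).resolve_left hb) (hT a b y hab ((hdom a).resolve_left ha))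
  · push Not at hdom
    obtain ⟨z0, hz0x, hz0y⟩ := hdom
    -- a vertex outside with a neighbour inside
    obtain ⟨z, s, hzx, hzy, hzs, hs⟩ : ∃ z s, ¬ G.Adj x z ∧ ¬ G.Adj y z ∧ G.Adj z s ∧
        (G.Adj x s ∨ G.Adj y s) := by
      obtain ⟨p⟩ := hc z0 x
      have key : ∀ {v w : V} (p : G.Walk v w), (¬ G.Adj x v ∧ ¬ G.Adj y v) →
          (G.Adj x w ∨ G.Adj y w) → ∃ z s, ¬ G.Adj x z ∧ ¬ G.Adj y z ∧ G.Adj z s ∧
            (G.Adj x s ∨ G.Adj y s) := by
        intro v w p
        induction p with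
        | nil => rintro ⟨h1, h2⟩ (h | h); exacts [absurd h h1, absurd h h2]
        | @cons v v1 w h p ih =>
          rintro h1 h2
          by_cases h3 : G.Adj x v1 ∨ G.Adj y v1
          · exact ⟨v, v1, h1.1, h1.2, h, h3⟩
          · push Not at h3
            exact ih h3 h2
      exact key p ⟨hz0x, hz0y⟩ (Or.inr hxy.symm)
    -- the 5-cycle, for a neighbour `s` of `x`
    have main : ∀ x y, G.Adj x y → (∀ p : V × V, G.Adj p.1 p.2 →
        ({t | G.Adj p.1 t ∨ G.Adj p.2 t} : Set V).ncard ≤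
          ({t | G.Adj x t ∨ G.Adj y t} : Set V).ncard) →
        ¬ G.Adj x z → ¬ G.Adj y z → G.Adj x s → G.Colorable 3 := by
      intro x y hxy hmax' hzx hzy hxs
      have hsy : ¬ G.Adj s y := fun h => hT x y s hxy hxs.symm h
      obtain ⟨t, htx, hts, hty⟩ : ∃ t, ¬ G.Adj x t ∧ ¬ G.Adj s t ∧ G.Adj y t := by
        by_contra hcon
        push Not at hcon
        have h1 : ({t | G.Adj s t ∨ G.Adj x t} : Set V).ncard ≤
            ({t | G.Adj x t ∨ G.Adj y t} : Set V).ncard := hmax' (s, x) hxs.symm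
        have h2 : ({t | G.Adj x t ∨ G.Adj y t} : Set V) ⊂ {t | G.Adj s t ∨ G.Adj x t} := by
          refine ⟨?_, fun hsub => ?_⟩
          · rintro t (h | h)
            · exact Or.inr h
            · by_cases h3 : G.Adj x t
              · exact Or.inr h3
              · by_cases h4 : G.Adj s t
                · exact Or.inl h4
                · exact absurd h (hcon t h3 h4)
          · rcases hsub (show z ∈ {t | G.Adj s t ∨ G.Adj x t} from Or.inl hzs.symm) with h | h
            · exact hzx h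
            · exact hzy h
        have h3 := Set.ncard_lt_ncard h2 (Set.toFinite _)
        omega
      have hzt : G.Adj z t := by
        by_contra hzt
        exact hP.elim hzs hxs.symm hxy hty (fun h => hzx h.symm) (fun h => hzy h.symm) hzt hsy
          hts htx
      refine colorable3_of_cyc5 hP hT hc (c := ![z, s, x, y, t]) ⟨?_, ?_⟩
      · intro i
        fin_cases i
        · exact hzs
        · exact hxs.symm
        · exact hxy
        · exact hty
        · exact hzt.symm
      · intro i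
        fin_cases i
        · exact fun h => hzx h.symm
        · exact hsy
        · exact htx
        · exact hzy
        · exact fun h => hts h.symm
    rcases hs with hs | hs
    · exact main x y hxy hmax' hzx hzy hs
    · refine main y x hxy.symm ?_ hzy hzx hs
      intro p hp
      have h1 := hmax' p hp
      have h2 : ({t | G.Adj y t ∨ G.Adj x t} : Set V) = {t | G.Adj x t ∨ G.Adj y t} := by
        ext t; exact or_comm
      rw [h2]
      exact h1

end Pool.Agent.Helper67.Scheme
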