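import Pool.Agent.Helper67.Scheme.P5c

set_option autoImplicit false

namespace Pool.Agent.Helper67.Scheme

open Pool.Agent.Helper58.Scheme Pool.Agent.Helper57.Force

universe u

variable {V : Type u} {G : SimpleGraph V}

theorem colorable3_of_no3 {Q : V → Fin 4} (hQ : Proper G Q) (h : ∀ v, Q v ≠ 3) :
    G.Colorable 3 := by
  refine ⟨SimpleGraph.Coloring.mk (fun x => (⟨(Q x).val, ?_⟩ : Fin 3)) ?_⟩
  · have h1 := h x
    have h2 := (Q x).isLt
    rcases Nat.lt_or_ge (Q x).val 3 with h | h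
    · exact h
    · exact absurd (Fin.ext (by simp; omega)) h1
  · intro a b hab h
    apply hQ a b hab
    have := congrArg Fin.val h
    exact Fin.ext this

theorem exists3_of_not3 (h : ¬ G.Colorable 3) (Q : V → Fin 4) (hQ : Proper G Q) :
    ∃ v, Q v = 3 := by
  by_contra hcon
  push Not at hcon
  exact h (colorable3_of_no3 hQ hcon)

theorem not3_of_exists3 (h : ∀ Q : V → Fin 4, Proper G Q → ∃ v, Q v = 3) : ¬ G.Colorable 3 := by
  rintro ⟨K⟩
  obtain ⟨v, hv⟩ := h (fun x => (K x).castSucc) (fun x y hxy he =>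
    K.valid hxy (Fin.castSucc_injective 3 he))
  have h1 := congrArg Fin.val hv
  have h2 := (K v).isLt
  simp at h1
  omega

/-- connected case -/
theorem p5_connected [Finite V] (hP : P5Free G) (hc : G.Preconnected)
    (hex : ∃ Q, Proper G Q) (h3 : ¬ G.Colorable 3) : ∃ Q, Proper G Q ∧ Good G Q := by
  by_cases htri : ∃ x y z, G.Adj x y ∧ G.Adj z x ∧ G.Adj z y
  · by_cases hflat : ∀ A B C : Set V, Forced G A B C → ∃ Q, Proper G Q ∧ Flat Q A B C
    · obtain ⟨A, B, C, hF, hD⟩ := p5_dominating hP hc hflat htri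
      exact forced_dominating_good hF hD hex (exists3_of_not3 h3)
    · push Not at hflat
      obtain ⟨A, B, C, hF, hno⟩ := hflat
      obtain ⟨Q, hQ, hg | hfl⟩ := forced_flat hF hex
      · exact ⟨Q, hQ, hg⟩
      · exact absurd hfl (hno Q hQ)
  · exact absurd (colorable3_of_trianglefree hP
      (fun x y z h1 h2 h4 => htri ⟨x, y, z, h1, h2, h4⟩) hc) h3

/-- arbitrary graphs without induced path on five vertices -/
theorem p5_good [Finite V] (hP : P5Free G) (hex : ∃ Q, Proper G Q)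
    (h3 : ∀ Q : V → Fin 4, Proper G Q → ∃ v, Q v = 3) : ∃ Q, Proper G Q ∧ Good G Q := by
  classical
  have hn := not3_of_exists3 h3
  rw [SimpleGraph.colorable_iff_forall_connectedComponent] at hn
  push Not at hn
  obtain ⟨κ, hκ⟩ := hn
  obtain ⟨Q0, hQ0⟩ := hex
  let f : κ.toSimpleGraph →g G := ⟨fun x => x.1, fun h => h⟩
  obtain ⟨Q1, hQ1, hg⟩ := p5_connected (G := κ.toSimpleGraph)
    (fun a b c d e h1 h2 h3 h4 => hP a.1 b.1 c.1 d.1 e.1 h1 h2 h3 h4)
    κ.connected_toSimpleGraph.preconnected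
    ⟨fun x => Q0 x.1, fun x y hxy => hQ0 _ _ hxy⟩ hκ
  refine ⟨fun w => if h : w ∈ κ.supp then Q1 ⟨w, h⟩ else Q0 w, ?_, ?_⟩
  · intro x y hxy
    by_cases hx : x ∈ κ.supp
    · have hy : y ∈ κ.supp := (κ.mem_supp_congr_adj hxy).mp hx
      simp only [hx, hy, dif_pos]
      exact hQ1 ⟨x, hx⟩ ⟨y, hy⟩ hxy
    · have hy : y ∉ κ.supp := fun h => hx ((κ.mem_supp_congr_adj hxy).mpr h)
      simp only [hx, hy, dif_neg, not_false_eq_true]
      exact hQ0 x y hxy
  · refine hg.map f (fun x => ?_)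
    have hx : (f x) ∈ κ.supp := x.2
    simp only [hx, dif_pos]
    rfl

theorem fine_of_p5 [Finite V] {S : Set V} (h : P5Free (G.induce S)) : Fine G S :=
  fun h4 h3 => p5_good h h4 h3

end Pool.Agent.Helper67.Scheme
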