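import Pool.Agent.Helper67.Scheme.Closure

set_option autoImplicit false

namespace Pool.Agent.Helper67.Scheme

open Pool.Agent.Helper58.Scheme Pool.Agent.Helper57.Force

universe u

/-- `ReducesTo G P S`: the induced subgraph `G[S]` can be turned into an induced subgraph `G[T]`
with the property `P T` by deleting vertices one after the other, where each deleted vertex has, in
the current graph, at most three neighbours or a neighbourhood contained in the neighbourhood of
another vertex. -/
inductive ReducesTo {V : Type u} (G : SimpleGraph V) (P : Set V → Prop) : Set V → Prop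
  | base (S : Set V) : P S → ReducesTo G P S
  | lowDegree (S : Set V) (x : V) : x ∈ S → {z | z ∈ S ∧ G.Adj x z}.ncard ≤ 3 →
      ReducesTo G P (S \ {x}) → ReducesTo G P S
  | dominated (S : Set V) (x y : V) : x ∈ S → y ∈ S → x ≠ y →
      (∀ z ∈ S, G.Adj x z → G.Adj y z) → ReducesTo G P (S \ {x}) → ReducesTo G P S

variable {V : Type u} {G : SimpleGraph V}

/-- the sets for which a good colouring exists whenever the graph is 4-chromatic -/
def Fine (G : SimpleGraph V) (S : Set V) : Prop :=
  (∃ Q, Proper (G.induce S) Q) → (∀ Q, Proper (G.induce S) Q → ∃ v, Q v = 3) →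
    ∃ Q, Proper (G.induce S) Q ∧ Good (G.induce S) Q

theorem fine_of_reducesTo [Finite V] {P : Set V → Prop} (hP : ∀ S, P S → Fine G S) {S : Set V}
    (h : ReducesTo G P S) : Fine G S := by
  classical
  unfold Fine
  induction h with
  | base S hS => exact hP S hS
  | lowDegree S x hx hdeg _ ih =>
    intro h4 h3
    have hrestrict : ∃ Q, Proper (G.induce (S \ {x})) Q := by
      obtain ⟨Q, hQ⟩ := h4
      exact ⟨fun y => Q ⟨y, y.2.1⟩, fun a b hab => hQ _ _ hab⟩
    by_cases h3' : ∀ Q, Proper (G.induce (S \ {x})) Q → ∃ v, Q v = 3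
    · obtain ⟨Q, hQ, hg⟩ := ih hrestrict h3'
      -- a free colour
      obtain ⟨c, hc⟩ : ∃ c : Fin 4, ∀ z : (S \ {x} : Set V), G.Adj x z → Q z ≠ c := by
        by_contra hcon
        push Not at hcon
        choose f hf1 hf2 using hcon
        have hinj : Function.Injective (fun c => ((f c : (S \ {x} : Set V)) : V)) := by
          intro c c' hcc
          have : f c = f c' := Subtype.ext hcc
          rw [← hf2 c, ← hf2 c', this]
        have h5 : (Set.range (fun c => ((f c : (S \ {x} : Set V)) : V))).ncard = 4 := by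
          rw [← Set.image_univ, Set.ncard_image_of_injective _ hinj, Set.ncard_univ,
            Nat.card_eq_fintype_card, Fintype.card_fin]
        have h6 : Set.range (fun c => ((f c : (S \ {x} : Set V)) : V)) ⊆
            {z | z ∈ S ∧ G.Adj x z} := by
          rintro _ ⟨c, rfl⟩
          exact ⟨(f c).2.1, hf1 c⟩
        have h7 := Set.ncard_le_ncard h6 (Set.toFinite _)
        omega
      exact ⟨extendCol Q c, extendCol_proper hQ hc, extendCol_good hg c⟩
    · push Not at h3'
      obtain ⟨Q, hQ, hno⟩ := h3'
      have hprop : Proper (G.induce S) (extendCol Q 3) :=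
        extendCol_proper hQ (fun z _ => hno z)
      have := Fintype.ofFinite S
      have hx3 : extendCol Q 3 (⟨x, hx⟩ : S) = 3 :=
        extendCol_of_notMem Q 3 _ (fun hmem => hmem.2 rfl)
      have honly : ∀ y : S, extendCol Q 3 y = 3 → y = ⟨x, hx⟩ := by
        intro y hy
        by_contra hne
        have hyT : (y : V) ∈ S \ {x} := ⟨y.2, fun e => hne (Subtype.ext e)⟩
        rw [extendCol_of_mem Q 3 y hyT] at hy
        exact hno _ hy
      have hmini : Mini (G.induce S) (extendCol Q 3) := by
        refine ⟨hprop, fun Q' hQ' => ?_⟩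
        obtain ⟨v, hv⟩ := h3 Q' hQ'
        have h1 : 1 ≤ (three Q').card := Finset.card_pos.mpr ⟨v, mem_three.mpr hv⟩
        have h2 : (three (extendCol Q 3 : S → Fin 4)) ⊆ {⟨x, hx⟩} := by
          intro y hy
          rw [mem_three] at hy
          rw [Finset.mem_singleton]; exact honly y hy
        have h5 := Finset.card_le_card h2
        rw [Finset.card_singleton] at h5
        omega
      obtain ⟨a0, hva0, ha0⟩ := hmini.sees hx3 (i := 0) (by decide)
      obtain ⟨a1, hva1, ha1⟩ := hmini.sees hx3 (i := 1) (by decide)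
      obtain ⟨a2, hva2, ha2⟩ := hmini.sees hx3 (i := 2) (by decide)
      have huniq : ∀ y : S, (G.induce S).Adj ⟨x, hx⟩ y → y = a0 ∨ y = a1 ∨ y = a2 := by
        intro y hy
        by_contra hcon
        push Not at hcon
        have h01 : a0 ≠ a1 := fun e => by rw [e, ha1] at ha0; exact absurd ha0 (by decide)
        have h02 : a0 ≠ a2 := fun e => by rw [e, ha2] at ha0; exact absurd ha0 (by decide)
        have h12 : a1 ≠ a2 := fun e => by rw [e, ha2] at ha1; exact absurd ha1 (by decide)
        have h5 : ({(y : V), (a0 : V), (a1 : V), (a2 : V)} : Set V) ⊆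
            {z | z ∈ S ∧ G.Adj x z} := by
          intro z hz
          simp only [Set.mem_insert_iff, Set.mem_singleton_iff] at hz
          rcases hz with rfl | rfl | rfl | rfl
          · exact ⟨y.2, hy⟩
          · exact ⟨a0.2, hva0⟩
          · exact ⟨a1.2, hva1⟩
          · exact ⟨a2.2, hva2⟩
        have h6 := Set.ncard_le_ncard h5 (Set.toFinite _)
        have e0 : (y : V) ≠ a0 := fun e => hcon.1 (Subtype.ext e)
        have e1 : (y : V) ≠ a1 := fun e => hcon.2.1 (Subtype.ext e)
        have e2 : (y : V) ≠ a2 := fun e => hcon.2.2 (Subtype.ext e)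
        have e3 : (a0 : V) ≠ a1 := fun e => h01 (Subtype.ext e)
        have e4 : (a0 : V) ≠ a2 := fun e => h02 (Subtype.ext e)
        have e5 : (a1 : V) ≠ a2 := fun e => h12 (Subtype.ext e)
        have h7 : ({(y : V), (a0 : V), (a1 : V), (a2 : V)} : Set V).ncard = 4 := by
          rw [Set.ncard_insert_of_notMem, Set.ncard_insert_of_notMem, Set.ncard_pair e5]
          · simp [e3, e4]
          · simp [e0, e1, e2]
        omega
      have u0 : ∀ y : S, (G.induce S).Adj ⟨x, hx⟩ y → extendCol Q 3 y = 0 → y = a0 := by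
        intro y hy hy0
        rcases huniq y hy with h | h | h
        · exact h
        · rw [h, ha1] at hy0; exact absurd hy0 (by decide)
        · rw [h, ha2] at hy0; exact absurd hy0 (by decide)
      have u1 : ∀ y : S, (G.induce S).Adj ⟨x, hx⟩ y → extendCol Q 3 y = 1 → y = a1 := by
        intro y hy hy0
        rcases huniq y hy with h | h | h
        · rw [h, ha0] at hy0; exact absurd hy0 (by decide)
        · exact h
        · rw [h, ha2] at hy0; exact absurd hy0 (by decide)
      have u2 : ∀ y : S, (G.induce S).Adj ⟨x, hx⟩ y → extendCol Q 3 y = 2 → y = a2 := by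
        intro y hy hy0
        rcases huniq y hy with h | h | h
        · rw [h, ha0] at hy0; exact absurd hy0 (by decide)
        · rw [h, ha1] at hy0; exact absurd hy0 (by decide)
        · exact h
      have hc : Cols 0 1 2 := by constructor <;> decide
      exact ⟨_, hprop, good_root hc hx3 ha0 ha1 ha2 hva0 hva1 hva2
        (hmini.linked hx3 (by decide) (by decide) (by decide) ha0 ha1 u0 u1)
        (hmini.linked hx3 (by decide) (by decide) (by decide) ha0 ha2 u0 u2)
        (hmini.linked hx3 (by decide) (by decide) (by decide) ha1 ha2 u1 u2)⟩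
  | dominated S x y hx hy hxy hdom _ ih =>
    intro h4 h3
    have hrestrict : ∃ Q, Proper (G.induce (S \ {x})) Q := by
      obtain ⟨Q, hQ⟩ := h4
      exact ⟨fun y => Q ⟨y, y.2.1⟩, fun a b hab => hQ _ _ hab⟩
    have hyT : y ∈ S \ {x} := ⟨hy, fun e => hxy e.symm⟩
    have hext : ∀ Q : (S \ {x} : Set V) → Fin 4, Proper (G.induce (S \ {x})) Q →
        ∀ z : (S \ {x} : Set V), G.Adj x z → Q z ≠ Q ⟨y, hyT⟩ := by
      intro Q hQ z hz
      have h1 : G.Adj y z := hdom z z.2.1 hz
      exact (hQ ⟨y, hyT⟩ z h1).symm
    obtain ⟨Q, hQ, hg⟩ := ih hrestrict (by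
      intro Q hQ
      obtain ⟨v, hv⟩ := h3 _ (extendCol_proper hQ (hext Q hQ))
      by_cases hvT : (v : V) ∈ S \ {x}
      · rw [extendCol_of_mem Q _ v hvT] at hv
        exact ⟨_, hv⟩
      · rw [extendCol_of_notMem Q _ v hvT] at hv
        exact ⟨_, hv⟩)
    exact ⟨extendCol Q _, extendCol_proper hQ (hext Q hQ), extendCol_good hg _⟩

theorem scheme_of_fine (G : SimpleGraph V) (h : Fine G Set.univ)
    (hχ : G.chromaticNumber = 4) : Nonempty (ChromaticFourScheme G) := by
  have h4 : G.Colorable 4 := by
    rw [← SimpleGraph.chromaticNumber_le_iff_colorable, hχ]; rfl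
  have h3 : ¬G.Colorable 3 := by
    rw [← SimpleGraph.chromaticNumber_le_iff_colorable, hχ]
    decide
  obtain ⟨C⟩ := h4
  obtain ⟨Q, hQ, hg⟩ := h
    ⟨fun x => C x, fun x y hxy => C.valid hxy⟩ (by
      intro Q hQ
      by_contra hcon
      push Not at hcon
      apply h3
      refine ⟨SimpleGraph.Coloring.mk
        (fun x => (⟨(Q ⟨x, trivial⟩).val, ?_⟩ : Fin 3)) ?_⟩
      · have h1 := hcon ⟨x, trivial⟩
        have h2 := (Q ⟨x, trivial⟩).isLt
        rcases Nat.lt_or_ge (Q ⟨x, trivial⟩).val 3 with h | h
        · exact h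
        · exact absurd (Fin.ext (by simp; omega)) h1
      · intro a b hab h
        apply hQ ⟨a, trivial⟩ ⟨b, trivial⟩ hab
        have := congrArg Fin.val h
        exact Fin.ext this)
  have hQ' : Proper G (fun x => Q ⟨x, trivial⟩) := fun a b hab => hQ ⟨a, trivial⟩ ⟨b, trivial⟩ hab
  refine scheme_of_good hQ' ?_
  let f : G.induce (Set.univ : Set V) →g G := ⟨fun x => x.1, fun h => h⟩
  exact hg.map f (fun x => rfl)

/-- an induced subgraph `G[S]` with a dominating propagation set -/
def HasDominatingClosure (G : SimpleGraph V) (S : Set V) : Prop :=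
  ∃ A B C : Set S, Forced (G.induce S) A B C ∧ Dominates (G.induce S) (A ∪ B ∪ C)

theorem fine_of_closure [Finite V] {S : Set V} (h : HasDominatingClosure G S) : Fine G S := by
  intro h4 h3
  obtain ⟨A, B, C, hF, hD⟩ := h
  exact forced_dominating_good hF hD h4 h3

end Pool.Agent.Helper67.Scheme
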